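import Pool.Agent.Helper69.UX.Defs

/-!
# Project UX (MP_e12aa9_pr), part C: the parameters.  Statements with proofs
-/

set_option autoImplicit false

namespace Pool.Agent.Helper69.UX

open Finset Filter Pool.Agent.Helper82.CN Pool.Agent.Helper11.PV Pool.Agent.Helper69.VX

/-! ### log-concave distributions on `{0, ..., M-1}` -/

/-- log-concave probability distribution, positive exactly on `{0, ..., M-1}` -/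
structure LC (a : ℕ → ℝ) (M : ℕ) : Prop where
  one : 1 ≤ M
  pos : ∀ i, i < M → 0 < a i
  zer : ∀ i, M ≤ i → a i = 0
  lc : ∀ i, a i * a (i + 2) ≤ a (i + 1) ^ 2
  sum : ∑ i ∈ range M, a i = 1

/-- `P(i ≥ j)` -/
noncomputable def Zt (a : ℕ → ℝ) (M j : ℕ) : ℝ := ∑ i ∈ Ico j M, a i

/-- `E (i - j)₊` -/
noncomputable def Ut (a : ℕ → ℝ) (M j : ℕ) : ℝ := ∑ i ∈ range M, ((i - j : ℕ) : ℝ) * a i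

/-- MGK (a numerical inequality).  Here `U` = mean, `H = θ + U`.

PROOF.  If `U = 0` the left side is `0` and the right side is `≥ 0`.  `f(a) = (1-a)(-ln(1-a))/a` is decreasing on `(0,1)`, `a ≤ a_m = 1/(1+U)`, and
`f(a_m) = U ln(1 + 1/U)`.  So it is enough that `U (1 + 1/(12H²)) ≤ H U ln(1 + 1/U)`, i.e. `ln(1 + 1/U) ≥ (1/H)(1 + 1/(12H²))`.  `U ≤ H - 1/2` (and `H > 1/2`), so
`ln(1 + 1/U) ≥ ln((H + 1/2)/(H - 1/2)) = 2 artanh(1/(2H)) ≥ 2(x + x³/3)` with `x = 1/(2H)` (`Real.hasSum_log_sub_log_of_abs_lt_one` or monotonicity of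
`ln((1+x)/(1-x)) - 2x - 2x³/3` on `[0,1)`), `= 1/H + 1/(12H³)`.  (`f` decreasing: `a ≤ a'` implies `(1-a)(-ln(1-a)) a' ≥ (1-a')(-ln(1-a')) a`: derivative, sign of
`-a - ln(1-a)`, or `f(a) = 1 - ∑_{m≥1} a^m/(m(m+1))`.) -/
def StMGK : Prop := ∀ (H θ U a : ℝ), 1 / 2 ≤ θ → 0 ≤ U → H = θ + U → 0 < a → a < 1 →
  a ≤ 1 / (1 + U) → U * a * (1 + 1 / (12 * H ^ 2)) ≤ H * ((1 - a) * (-Real.log (1 - a)))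

/-- MGM (monotonicity).

PROOF.  (1) `a_j a_{i+1} ≤ a_{j+1} a_i` for `i ≥ j` (log-concavity, positivity), sum over `i ≥ j`.  (2) `Ut j = ∑_{i>j} Zt i`, and `Zt(i+1)/Zt(i)` is nonincreasing by (1)
(`Zt (i+1) = Zt i - a i`), so `Zt(j+1+l)/Zt(j+1) ≤ Zt(j+l)/Zt(j)`; sum over `l ≥ 1`.  (3) `Zt(i+1) ≤ (1 - a 0) Zt(i)` by (1), so `Zt i ≤ (1 - a 0)^i` and
`Ut 0 = ∑_{i≥1} Zt i ≤ (1 - a 0)/a 0`.  (4) `Ut j = Ut (j+1) + Zt (j+1)`, `Zt 0 = 1`, `Zt j = Zt (j+1) + a j` (`j < M`). -/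
def StMGM : Prop := ∀ (a : ℕ → ℝ) (M : ℕ), LC a M →
  (∀ j, a j * Zt a M (j + 1) ≤ a (j + 1) * Zt a M j) ∧
  (∀ j, Ut a M (j + 1) * Zt a M j ≤ Ut a M j * Zt a M (j + 1)) ∧
  a 0 * (1 + Ut a M 0) ≤ 1 ∧
  (∀ j, Ut a M j = Ut a M (j + 1) + Zt a M (j + 1)) ∧ Zt a M 0 = 1 ∧
  (∀ j, j < M → Zt a M j = Zt a M (j + 1) + a j)

/-- MGB (break points).  Uses `StMGK`, `StMGM`.

PROOF.  Induction on `j`; `j = 0`: both sides are `H` (`Zt 0 = 1`).  Step `j → j+1 < M`: `A_j = θ + j + Ut j/Zt j`, `q = a_j/Zt_j`, `Zt_{j+1} = (1-q) Zt_j`.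
`e = 1 + Ut_{j+1}/Zt_{j+1}`; `Ut_j = Ut_{j+1} + Zt_{j+1} = Zt_{j+1} e`, so `A_{j+1} - A_j = e - (1-q) e = q e`.  By (2) of MGM `e ≤ e₀ = 1 + Ut_1/Zt_1 = Ut_0/(1 - a_0)`; by (1) `q ≥ a_0`.
As `x ↦ -ln(1-x)/x` is increasing: `-ln(1-q) ≥ q (-ln(1-a_0))/a_0`, and MGK (`U = Ut_0`, `a = a_0 < 1` as `M ≥ 2`): `Ut_0/(1-a_0) ≤ (H/(1 + 1/(12H²))) (-ln(1-a_0))/a_0`.  Hence
`A_{j+1} - A_j ≤ (H/(1+1/(12H²))) (-ln(1-q)) = (H/(1+1/(12H²))) (ln(1/Zt_{j+1}) - ln(1/Zt_j))`. -/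
def StMGB : Prop := ∀ (a : ℕ → ℝ) (M : ℕ) (θ H : ℝ), LC a M → 1 / 2 ≤ θ → H = θ + Ut a M 0 →
  ∀ j, j < M → (θ + j) * Zt a M j + Ut a M j ≤
    H * (Zt a M j + Zt a M j * Real.log (1 / Zt a M j) / (1 + 1 / (12 * H ^ 2)))

/-- MGX (all `y`).  Uses `StMGB`, `StMGM`.

PROOF.  Let `j < M` be such that `Zt (j+1) ≤ y ≤ Zt j` (`Zt` decreases from `1` to `0 = Zt M`).  `h(y) = H(y + y ln(1/y)/(1+1/(12H²)))` is concave on `[0,1]`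
(`Real.concaveOn_negMulLog`), `h(0) = 0`.  The linear function `(θ+j) y + Ut j` is `≤ h` at `y = Zt j` (MGB) and at `y = Zt (j+1)`:
`(θ+j) Zt(j+1) + Ut j = (θ+j+1) Zt(j+1) + Ut(j+1)` (MGB for `j+1 < M`; `0 ≤ 0` if `j + 1 = M`).  So it is `≤ h(y)`.  `j y ≤ j Zt j ≤ ∑_{i ≥ j} i a i ≤ Ut 0 ≤ H`. -/
def StMGX : Prop := ∀ (a : ℕ → ℝ) (M : ℕ) (θ H : ℝ), LC a M → 1 / 2 ≤ θ → H = θ + Ut a M 0 →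
  ∀ y : ℝ, 0 < y → y ≤ 1 → ∃ j : ℕ, (j : ℝ) ≤ H / y ∧
    (θ + j) * y + Ut a M j ≤ H * (y + y * Real.log (1 / y) / (1 + 1 / (12 * H ^ 2)))

/-! ### sizes -/

/-- sizes: all facts about `T` and `n` which are used -/
structure Siz (p δ : ℝ) (J n T : ℕ) (th : ℝ) : Prop where
  t0 : 1 / δ ≤ Real.log n
  t1 : |bb p * T - 2 * Real.log n| ≤ δ * Real.log n
  t2 : |bb p * T - 2 * Real.log n + 2 * Real.log T| ≤ 3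
  t3 : (T : ℝ) ^ 8 ≤ (n : ℝ) ^ δ
  t4 : J + 4 ≤ T ∧ T + J + 4 ≤ n
  t5 : ∀ k : ℕ, k ≤ T + J → T ≤ k + J → |hv p n k - ((T : ℝ) + 1 + th - k) * Real.log n| ≤
    δ * Real.log n
  t6 : Real.log n ^ 8 ≤ (n : ℝ) ^ δ

/-- SIZ.  Uses `StMkb` of project CN.

PROOF.  `L = bb p`, `λ = ln n`.  `α₀ = 2λ/L - 2 ln(λ/L)/L + 2(1 - ln 2)/L + 1` and `T = α₀ - 1 - th`: `LT = 2λ - 2 ln(λ/L) + 2(1 - ln 2) - L th`, so (t1), and `ln T = ln(2λ/L) + o(1)` gives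
`LT - 2λ + 2 ln T = 2 - L th + o(1) ∈ [-1, 3]` (`L ≤ 2`, `th ≤ 1`), so (t2).  (t5): StMkb with `K = J + 3`.  The others: `T ≤ C λ`, `λ → ∞`. -/
def StSIZ : Prop := ∀ (p ε δ : ℝ) (J : ℕ), 0 < p → p ≤ 1 - 1 / Real.exp 2 → 0 < ε → ε ≤ 1 / 24 →
  0 < δ → ∃ n0 : ℕ, ∀ (n T : ℕ) (th : ℝ), n0 ≤ n → Win p ε n T th → Siz p δ J n T th

/-! ### the profile -/

/-- the weights relative to the top size: `ρ^i (T)_i T^{-i} e^{-L i(i-1)/2}` -/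
noncomputable def ai (L ρ : ℝ) (T i : ℕ) : ℝ :=
  ρ ^ i * ((T.descFactorial i : ℝ) / (T : ℝ) ^ i) * Real.exp (-(L * (i * (i - 1)) / 2))

noncomputable def As (L ρ : ℝ) (T : ℕ) : ℝ := ∑ i ∈ range T, ai L ρ T i

noncomputable def Bs (L ρ : ℝ) (T : ℕ) : ℝ := ∑ i ∈ range T, (i : ℝ) * ai L ρ T i

/-- PR1 (algebra of the profile).

PROOF.  `κ (T-i) = κ T e^{-mu i} om(T-i)/om(T)`, `C(T,2) - C(T-i,2) = i(T-1) - i(i-1)/2`, `e^{-mu} = ρ e^{-(T-1)L}/T`, so `κ (T-i) = κ T · ai`; `κ T = e^{lam + mu T} om T = K/A`.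
Hence `∑ κ = K`, `∑ (T-u) κ u = (K/A) B = m K`, `∑ u κ u = K(T - m) = n`.  `m ≤ T - 1`.  `ln om T = hv p n T - T ln n`; insert `lam`, and `K (T - m) = n`. -/
def StPR1 : Prop := ∀ (p ρ : ℝ) (n T : ℕ), 0 < p → p < 1 → 0 < ρ → 1 ≤ T → 1 ≤ n →
  ∀ (A m K mu lam : ℝ) (κ : ℕ → ℝ), A = As (bb p) ρ T → m = Bs (bb p) ρ T / A → K = n / (T - m) →
  mu = Real.log T + (T - 1) * bb p - Real.log ρ →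
  lam = Real.log (K / A) - mu * T - Real.log (om p T) →
  (∀ u, κ u = if 1 ≤ u ∧ u ≤ T then Real.exp (lam + mu * u) * om p u else 0) →
  0 < A ∧ 0 ≤ m ∧ m ≤ T - 1 ∧ 0 < K ∧ (∀ i, i < T → κ (T - i) = K / A * ai (bb p) ρ T i) ∧
  KK T κ = K ∧ ∑ u ∈ range (T + 1), (u : ℝ) * κ u = n ∧
  ∑ u ∈ range (T + 1), ((T : ℝ) - u) * κ u = m * K ∧
  Real.log (n.factorial : ℝ) - mu * n - lam * K + K =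
    K * (m * (mu - Real.log n) - T + m + 1 - Real.log K + Real.log A + hv p n T) +
      (Real.log (n.factorial : ℝ) - n * Real.log n + n)

/-- PR2 (the mean as a function of `ρ`).

PROOF.  `0 ≤ ai ≤ ρ^i e^{-L i(i-1)/2}`, `ai 0 = 1`.  `ρ₁`: `m ≤ ∑ i ρ₁^i e^{-Li(i-1)/2} ≤ ε` for small `ρ₁ ≤ 1` (`≤ ρ₁ ∑ i e^{-Li(i-1)/2}`).  `ρ₂`: let `I = ⌈2/L⌉ + 2`, `ρ₂ = 4 e^{2IL}`, `T ≥ 4I`:
`ai (l+1)/ai l = ρ₂ ((T-l)/T) e^{-Ll} ≥ 4 · (1/2) = 2` for `l ≤ 2I`, so `ai l ≤ 2^{-(2I-l)} ai (2I)` for `l ≤ 2I` and `∑_{l ≤ I} ai l ≤ 2 · 2^{-I} ai(2I) ≤ (1/2) As`-small: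
`P(i ≤ I) ≤ 2^{1-I} ≤ 1/4` (`I ≥ 3`), so `m ≥ (3/4)(I+1)`; take `I` bigger if necessary (`I = 2⌈2/L⌉ + 4`).  Upper bounds for `ρ ∈ [ρ₁, ρ₂]`: `A ≤ ∑ ρ₂^i e^{-Li(i-1)/2} =: C`, also `B ≤ C`, `A ≥ 1`.
Continuity: finite sums of polynomials. -/
def StPR2 : Prop := ∀ (L ε : ℝ), 0 < L → L ≤ 2 → 0 < ε → ∃ ρ₁ ρ₂ C : ℝ, 0 < ρ₁ ∧ ρ₁ < ρ₂ ∧ 1 ≤ C ∧
  ρ₂ ≤ C ∧ 1 / ρ₁ ≤ C ∧ ∃ T0 : ℕ, ∀ T : ℕ, T0 ≤ T →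
  Bs L ρ₁ T ≤ ε * As L ρ₁ T ∧ (2 / L + 1) * As L ρ₂ T ≤ Bs L ρ₂ T ∧
  ContinuousOn (fun ρ => As L ρ T) (Set.Icc ρ₁ ρ₂) ∧ ContinuousOn (fun ρ => Bs L ρ T) (Set.Icc ρ₁ ρ₂) ∧
  ∀ ρ, ρ₁ ≤ ρ → ρ ≤ ρ₂ → 1 ≤ As L ρ T ∧ As L ρ T ≤ C ∧ Bs L ρ T ≤ C * As L ρ T ∧
    ∀ i, i < T → 0 < ai L ρ T i ∧ ai L ρ T i ≤ ρ₂ ^ i * Real.exp (-(L * (i * (i - 1)) / 2))

/-- PAR (existence of the parameters).  Uses `StPR1`, `StPR2`, `StSIZ`.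

PROOF.  `L = bb p ∈ (0,2]`, `ρ₁, ρ₂, C'` from PR2 with `6ε`.  For `ρ ∈ [ρ₁,ρ₂]` let `m, K, mu, lam, κ` be as in PR1, `S(ρ) = ln n! - mu n - lam K + K`, continuous in `ρ`.  PR1, Stirling
(`0 ≤ ln n! - n ln n + n ≤ ln n + 1`) and SIZ: `mu - ln n = ln T + (T-1)L - ln ρ - ln n = ln n + o(ln n)`, `T = (2/L) ln n + o(ln n)`, `ln K = ln n + o(ln n)`
(`K = n/(T-m)`, `m ≤ C'`), `hv p n T = (1+th) ln n + o(ln n)`, so `S/K = (m - 2/L + th + o(1)) ln n`, uniformly in `ρ ∈ [ρ₁,ρ₂]` and `th`.  At `ρ₁`: `m ≤ 6ε`, `2/L - th ≥ 1 - th ≥ 12ε`: `S < 0`.  At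
`ρ₂`: `m ≥ 2/L + 1`: `S ≥ K (ln n)/2 ≥ n^{th+3ε}` (`th + 3ε ≤ 1 - 9ε`).  Intermediate value theorem: `S(ρ) = n^{th+3ε}` for some `ρ`, there `|S/K| ≤ 1`, so
`|m - (2/L - th)| ≤ δ` for large `n`: (mean).  (tail) `κ (T-i) = K ai/A ≤ K ρ₂^i e^{-Li(i-1)/2} = K (ρ₂ e^{L/2})^i e^{-Li²/2}`.  (top) `K = A κ T`.  (lam)
`-lam = T(mu - ln n) + hv p n T - ln K + ln A ~ (2/L)(ln n)²`.  (nxt) `e^{lam + mu(T+1)} om(T+1) = κ T e^{mu}/((T+1) b^T) = κ T · (T/(T+1)) /(ρ b) ≤ κ T/ρ₁` and `κ T ≤ n`. -/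
def StPAR : Prop := ∀ (p ε : ℝ), 0 < p → p ≤ 1 - 1 / Real.exp 2 → 0 < ε → ε ≤ 1 / 24 →
  ∃ C : ℝ, 1 ≤ C ∧ ∀ δ : ℝ, 0 < δ → ∃ n0 : ℕ, ∀ (n T : ℕ) (th : ℝ), n0 ≤ n → Win p ε n T th →
  ∃ (κ : ℕ → ℝ) (lam mu : ℝ), Par p ε C δ n T th κ lam mu

/-- BUD (the budget inequality).  Uses `StMGX`, `StSIZ`.

PROOF.  `L = bb p`, `K = KK T κ ≥ n/T`, `k = |P|`, `|k - K| ≤ s ≤ n^{1-ε}`, `m = |I|`, `x = m/k`, `y = 1 - x ∈ [ε₀, 1 - ε₁]`.  `a i = κ(T-i)/K` for `i < T` (else `0`), `M = T`, is log-concave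
(`om(u) om(u+2) ≤ om(u+1)²`), `H = th + Ut 0`, `|H - 2/L| ≤ δ` (Par.mean).  MGX for `y`: `j ≤ H/y ≤ (2/L+1)/ε₀ ≤ J`.  Write `D_j = ∑ κ u (T-j-u)₊ = K Ut j`.
`∑_P min(T-|A|, J) ≥ ∑_P (T - |A|) - ∑_P (T-J-|A|)₊ ≥ Tk - n - D_J - δK ≥ K Ut 0 - Ts - D_J - δK` (`Tk - n ≥ T(K-s) - n`, `TK - n = K Ut 0`), and
`∑_{P∖I} min(T-|A|,J) ≤ ∑_{P∖I} (j + (T-j-|A|)₊) ≤ (k-m) j + D_j + δK`.  So
`∑_I (th + min) ≥ th k + K Ut 0 - ky(th + j) - D_j - D_J - 2δK - Ts ≥ K [H - (th+j) y - Ut j] - D_J - 2δK - (T + J + 3)s ≥ K H [x - ph x + η ph x] - ...`,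
`η = 1 - 1/(1+1/(12H²)) ≥ η₀(L) > 0`, as `H(1 - y - y ln(1/y)/(1+..)) = H (x - (1-η) ph x)`.  `0 ≤ x - ph x ≤ 1`, `ph x ≥ x(1-x) ≥ ε₀ε₁/2`; `D_J/K = Ut J ≤ ∑_{i>J} i C^{i+1} e^{-Li²/2} ≤ δ` for
large `J`; `(T+J+3)s/K ≤ δ` for large `n`.  So it is `≥ k[(2/L)(x - ph x) + (1/L) η₀ ε₀ε₁/2 - C' δ]`; choose `δ` small, `c = η₀ε₀ε₁/(8L)`. -/
def StBUD : Prop := ∀ (p ε C ε₀ ε₁ : ℝ), 0 < p → p ≤ 1 - 1 / Real.exp 2 → 0 < ε → ε ≤ 1 / 24 →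
  1 ≤ C → 0 < ε₀ → ε₀ ≤ 1 / 4 → 0 < ε₁ → ε₁ ≤ 1 / 4 →
  ∃ (J : ℕ) (δ c : ℝ), 1 ≤ J ∧ 0 < δ ∧ 0 < c ∧ ∃ n0 : ℕ, ∀ (C₀ s : ℝ) (n T : ℕ) (th : ℝ)
    (κ : ℕ → ℝ) (lam mu : ℝ) (P I : Finset (Finset (Fin n))), n0 ≤ n → Win p ε n T th →
  Par p ε C δ n T th κ lam mu → Good p C₀ δ s n T J κ P → 0 ≤ s → s ≤ (n : ℝ) ^ (1 - ε) → I ⊆ P →
  ε₁ * P.card ≤ I.card → (I.card : ℝ) ≤ (1 - ε₀) * P.card →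
  P.card * (2 / bb p * ((I.card : ℝ) / P.card - ph ((I.card : ℝ) / P.card)) + c) ≤
    ∑ A ∈ I, (th + ((min (T - A.card) J : ℕ) : ℝ))

end Pool.Agent.Helper69.UX
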