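import Pool.Agent.Helper69.UX.StB
import Pool.Agent.Helper69.UX.StC

/-!
# Project UX (MP_e12aa9_pr), part D: estimates for the overlap sums.  Statements with proofs

Notation: `L = bb p`, `b = 1/(1-p) = e^L`, `λ = ln n`, `R = RR ε T`, `A = T + 1`.
-/

set_option autoImplicit false

namespace Pool.Agent.Helper69.UX

open Finset Filter Pool.Agent.Helper82.CN Pool.Agent.Helper11.PV Pool.Agent.Helper69.VX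

/-- `v! κ v` -/
noncomputable def gf (κ : ℕ → ℝ) (v : ℕ) : ℝ := (v.factorial : ℝ) * κ v

/-- the factor of a class of size `c` in `StOVL` (with `w = b`, `z = n`, `A = T + 1`, `g = gf κ`) -/
noncomputable def FF (p : ℝ) (n T R : ℕ) (κ : ℕ → ℝ) (c : ℕ) : ℝ :=
  ∑ r ∈ Ioc R c, (c.choose r : ℝ) * (1 / (1 - p)) ^ (r.choose 2) / (n : ℝ) ^ r *
    ∑ v ∈ Icc r (T + 1), gf κ v / ((v - r).factorial : ℝ)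

/-- general weights: at most `2n` classes, `κ (T+1) ≤ 1` -/
structure Wt (n T : ℕ) (κ : ℕ → ℝ) : Prop where
  nn : ∀ v, 0 ≤ κ v
  z0 : κ 0 = 0
  zz : ∀ v, T + 1 < v → κ v = 0
  tt : κ (T + 1) ≤ 1
  ss : ∑ v ∈ range (T + 2), κ v ≤ 2 * n

/-- FBD (the factor of a class).  Uses `StSIZ`.

PROOF.  `c ≤ R`: `FF = 0`.  With `r = c - d`: `(c.choose r) b^{C(r,2)} n^{-r} v!/(v-r)! = C(c,d) C(v,r) e^{-hv r}`.  `e^{-hv(r-1)} = e^{-hv r} n/(r b^{r-1}) ≤ e^{-hv r} n^{-ε/2}` for `r - 1 ≥ R`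
(`b^R ≥ n^{(1/2+ε/2)(2-δ')} ≥ n^{1+ε/2}`).  `c = T - i ≤ T`: `C(c,d) ≤ (T+1)^d`, `C(v,r) ≤ (T+1)^{i+1+d}` (`v ≤ T+1`), so `FF ≤ 2n (T+1)^{i+1} e^{-hv c} ∑_d ((T+1)² n^{-ε/2})^d ≤ 4n (T+1)^{i+1} e^{-hv c}`.
For `i ≤ J`: `hv (T-i) ≥ (1+th+i-δ')λ` (SIZ).  For `i > J`: going down from `T-J` to `c > R` multiplies `(T+1)^{i+1} e^{-hv}` by at most `(T+1) n^{-ε/2} ≤ 1` in every step.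
`c = T+1`: `d = 0`: `κ(T+1) e^{-hv(T+1)} ≤ n^{-th+δ'}`; `d ≥ 1`: at most `2n (T+1)^{2d} e^{-hv T} n^{-(d-1)ε/2}`.  Second part (`κ(T+1) = 0`, `c = T`): `d = 0` gives `κ T e^{-hv T}`, `d ≥ 1` gives
`≤ 2n (T+1)^{2d+1} e^{-hv(T-1)} n^{-(d-1)ε/2}`, `hv(T-1) ≥ (2+th-δ')λ`. -/
def StFBD : Prop := ∀ (p ε δ : ℝ) (J : ℕ), 0 < p → p ≤ 1 - 1 / Real.exp 2 → 0 < ε → ε ≤ 1 / 24 →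
  0 < δ → ∃ n0 : ℕ, ∀ (n T : ℕ) (th : ℝ) (κ : ℕ → ℝ), n0 ≤ n → Win p ε n T th → Wt n T κ →
  (∀ c, c ≤ T + 1 → FF p n T (RR ε T) κ c ≤ (n : ℝ) ^ (-(th + ((min (T - c) J : ℕ) : ℝ)) + δ)) ∧
  (κ (T + 1) = 0 → FF p n T (RR ε T) κ T ≤ κ T / Real.exp (hv p n T) + (n : ℝ) ^ (-(1 + th) + δ))

/-- FAC (factorials and `ph`).

PROOF.  (1) `N! ≤ e √N (N/e)^N`, `n! ≥ √(2πn) (n/e)^n ≥ √n (n/e)^n` (`Stirling.le_factorial_stirling`-type lemmas, or `n! ≥ (n/e)^n`, `N! ≤ e N (N/e)^N` with `1 + ln n` instead of `1`: the statement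
has `1 + ln n`).  (2)-(4) `ph x = (1-x) ln(1/(1-x))`, `(x - ph x)' = ln(1/(1-x)) ≥ 0`; `ph x ≥ (1-x) x` as `ln(1/(1-x)) ≥ x`, so `x - ph x ≤ x²`. -/
def StFAC : Prop := (∀ n N : ℕ, 1 ≤ N → N ≤ n →
  (N.factorial : ℝ) * (n : ℝ) ^ (n - N) ≤ (n.factorial : ℝ) * Real.exp (1 + Real.log n +
    n * ((1 - (N : ℝ) / n) - ph (1 - (N : ℝ) / n)))) ∧
  (∀ x : ℝ, 0 ≤ x → x ≤ 1 → x - ph x ≤ x ^ 2 ∧ 0 ≤ x - ph x ∧ 0 ≤ ph x ∧ x * (1 - x) ≤ ph x) ∧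
  (∀ x y : ℝ, 0 ≤ x → x ≤ y → y < 1 → x - ph x ≤ y - ph y ∧
    (y - ph y) - (x - ph x) ≤ (y - x) * Real.log (1 / (1 - y))) ∧
  (∀ y : ℝ, 0 ≤ y → y ≤ 1 → y - ph y ≤ 1)

/-- GAM (the correlation exponent).  Uses `StSIZ`.

PROOF.  `R - 1 ≤ (1/2 + ε/2)T`, so `ws^{(r-1)/2} ≤ e^{(1+ε/8) L (1/2+ε/2) T/2} ≤ n^{1/2 + 2ε/3}` for `r ≤ R` (SIZ t1 with small `δ`), `A = T + 1`.  The term `r` is `(N²/A²) x_r^r/r!`, `x_r = e A² ws^{(r-1)/2}/N`.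
`r = 2`: `e² A² ws/2`.  `3 ≤ r ≤ r₀ = ⌈16/ε⌉`: `x_r ≤ C A²/N`, `N² x_r³ ≤ C A⁶/N ≤ 1`.  `r > r₀`: `x_r ≤ n^{-ε/4}`, `N² x_r^r ≤ n^{2-4} ≤ 1`.  So the sum is `≤ e² A² ws/2 + T ≤ T³`. -/
def StGAM : Prop := ∀ (p ε : ℝ), 0 < p → p ≤ 1 - 1 / Real.exp 2 → 0 < ε → ε ≤ 1 / 24 →
  ∃ n0 : ℕ, ∀ (n T N : ℕ) (th ws : ℝ), n0 ≤ n → Win p ε n T th → 1 ≤ ws →
  ws ≤ Real.exp ((1 + ε / 8) * bb p) → (n : ℝ) ^ (1 / 2 + ε) ≤ N →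
  GG (T + 1) (RR ε T) N ws ≤ (T : ℝ) ^ 3

/-- OVN (overlap sum with `z = n`).  Uses `StOVL`, `StGAM`, `StFAC`.

PROOF.  If there is a `Q` in the sum, `N = NR ≥ n - ∑_I |C|` and `N = n - ∑_I mxb ≤ n`; otherwise the left side is `0` (the right side is `≥ 0`).  OVL with `A = T+1`, `R = RR ε T` (`A ≤ 2R`), `w = b`, `z = n`,
`g = gf κ` (`g v/v! = κ v`), GAM, FAC (1) with `1 - N/n ≤ Y = ∑_I |C|/n` (FAC (3); if `Y = 1` use `y - ph y ≤ 1 = Y - ph Y`, `ph 1 = 0`). -/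
def StOVN : Prop := ∀ (p ε : ℝ), 0 < p → p ≤ 1 - 1 / Real.exp 2 → 0 < ε → ε ≤ 1 / 24 →
  ∃ n0 : ℕ, ∀ (n T N : ℕ) (th ws : ℝ) (κ : ℕ → ℝ) (P I : Finset (Finset (Fin n))), n0 ≤ n →
  Win p ε n T th → Wt n T κ → P ∈ Pt (Fin n) → (∀ C ∈ P, C.card ≤ T + 1) → I ⊆ P →
  1 / (1 - p) ≤ ws → ws ≤ Real.exp ((1 + ε / 8) * bb p) → (n : ℝ) ^ (1 / 2 + ε) ≤ N →
  ∑ Q ∈ (Pt (Fin n)).filter (fun Q => bigS (RR ε T) P Q = I ∧ NR (RR ε T) P Q = N),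
      pw (gf κ) Q * (1 / (1 - p)) ^ ovB (RR ε T) P Q * ws ^ (ovl P Q - ovB (RR ε T) P Q) ≤
    (n.factorial : ℝ) * Real.exp ((T : ℝ) ^ 3 + 1 + Real.log n + ∑ v ∈ range (T + 2), κ v +
      n * (((∑ C ∈ I, C.card : ℕ) : ℝ) / n - ph (((∑ C ∈ I, C.card : ℕ) : ℝ) / n))) *
      ∏ C ∈ I, FF p n T (RR ε T) κ C.card

/-- MD1 (few big blocks).  Uses `StFBD`, `StFAC`, `StSIZ`.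

PROOF.  `ε₁ = min(εL/64, 1/4)`, `m = |I|`, `Y = ∑_I |C|/n ≤ m(T+1)/n ≤ 2ε₁` (`|P|(T+1) ≤ 2n`).  FAC (2): `n(Y - ph Y) ≤ nY² ≤ m(T+1)·2ε₁ ≤ (ε/8) m λ` (`T + 1 ≤ (3/L)λ`, SIZ), `FF ≤ n^{-th+ε/8}` (FBD, any `J`). -/
def StMD1 : Prop := ∀ (p ε : ℝ), 0 < p → p ≤ 1 - 1 / Real.exp 2 → 0 < ε → ε ≤ 1 / 24 →
  ∃ ε₁ : ℝ, 0 < ε₁ ∧ ε₁ ≤ 1 / 4 ∧ ∃ n0 : ℕ, ∀ (n T : ℕ) (th : ℝ) (κ : ℕ → ℝ)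
    (P I : Finset (Finset (Fin n))), n0 ≤ n → Win p ε n T th → Wt n T κ → P ∈ Pt (Fin n) →
  (∀ C ∈ P, C.card ≤ T + 1) → (P.card : ℝ) * (T + 1) ≤ 2 * n → I ⊆ P →
  (I.card : ℝ) ≤ ε₁ * P.card →
  Real.exp (n * (((∑ C ∈ I, C.card : ℕ) : ℝ) / n - ph (((∑ C ∈ I, C.card : ℕ) : ℝ) / n))) *
      ∏ C ∈ I, FF p n T (RR ε T) κ C.card ≤ (n : ℝ) ^ ((-th + ε / 4) * I.card)

/-- MD2 (a proportion of big blocks).  Uses `StFBD`, `StFAC`, `StSIZ`, `StBUD`.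

PROOF.  `k = |P|`, `K = KK T κ₀`, `K(T - m̄) = n` with `0 ≤ m̄ ≤ 2/L + δ` (Par.mean), `|k - K| ≤ s ≤ n^{1-ε}`: `n ≤ k(T+1)` and `k(T+1) ≤ n(1 + C'/T)`.  `J, δ, c` from BUD (for `ε₀, ε₁`).  `m = |I|`, `x = m/k`, `Y = ∑_I|C|/n ≤ x(1 + C'/T)`,
`1 - Y ≥ ε₀/2`.  `∏ FF ≤ n^{-∑_I(th + min(T-|C|,J)) + (c/8) m}` (FBD with `c/8`) `≤ exp(-kλ[(2/L)(x - ph x) + 7c/8])` (BUD).  FAC (3): `n(Y - ph Y) ≤ n(x - ph x) + n (C'/T) ln(2/ε₀) ≤ k(T+1)(x - ph x) + C'' k`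
`≤ kλ[(2/L)(x - ph x) + c/8]` (SIZ t1 with small `δ'`; `0 ≤ x - ph x ≤ 1`). -/
def StMD2 : Prop := ∀ (p ε C ε₀ ε₁ : ℝ), 0 < p → p ≤ 1 - 1 / Real.exp 2 → 0 < ε → ε ≤ 1 / 24 → 1 ≤ C →
  0 < ε₀ → ε₀ ≤ 1 / 4 → 0 < ε₁ → ε₁ ≤ 1 / 4 → ∃ (J : ℕ) (δ c : ℝ), 0 < δ ∧ 0 < c ∧ ∃ n0 : ℕ,
  ∀ (C₀ s : ℝ) (n T : ℕ) (th : ℝ) (κ₀ κ : ℕ → ℝ) (lam mu : ℝ) (P I : Finset (Finset (Fin n))),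
  n0 ≤ n → Win p ε n T th → Par p ε C δ n T th κ₀ lam mu → Good p C₀ δ s n T J κ₀ P → 0 ≤ s →
  s ≤ (n : ℝ) ^ (1 - ε) → Wt n T κ → I ⊆ P → ε₁ * P.card ≤ I.card →
  (I.card : ℝ) ≤ (1 - ε₀) * P.card →
  (P.card : ℝ) * (T + 1) ≤ 2 * n ∧ ε₀ * n / 2 ≤ n - ((∑ C ∈ I, C.card : ℕ) : ℝ) ∧
  Real.exp (n * (((∑ C ∈ I, C.card : ℕ) : ℝ) / n - ph (((∑ C ∈ I, C.card : ℕ) : ℝ) / n))) *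
      ∏ C ∈ I, FF p n T (RR ε T) κ C.card ≤ Real.exp (-(c * P.card * Real.log n))

open Classical in
/-- MID (medium overlaps).  Uses `StOVN`, `StMD1`, `StMD2`.

PROOF.  `ε₁` from MD1, `J, δ, c` from MD2.  `k = |P|`; `k(T+1) ≤ 2n` (from Good.num2, Par.mean: `K(T - m̄) = n`, `m̄ ≤ 2/L + δ`; or from MD2).  Sum over `N` and over the `I ⊆ P` with `m₀ ≤ m = |I| ≤ (1-ε₀)k`; if the sum over `Q` is not empty, `N ≥ n - ∑_I|C| ≥ n^{1/2+ε}` (for `m ≤ ε₁k`: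
`∑_I|C| ≤ ε₁ k (T+1) ≤ n/2`; else MD2).  OVN with `ws = b` (`b^{ovB} b^{ovl-ovB} = b^{ovl}`, `ovB ≤ ovl`).  (1) `m ≤ ε₁k`: the number of `I` is `≤ (e k/m)^m ≤ (e n^{th-ε})^m` (`k ≤ n`, `m ≥ m₀ ≥ n^{1-th+ε}`), MD1: together `≤ (e n^{-3ε/4})^m ≤ n^{-εm/2} ≤ e^{-3m₀}`.
(2) `m > ε₁k`: at most `2^k` sets `I`; MD2: `≤ 2^k e^{-ckλ} ≤ e^{-3k} ≤ e^{-3m₀}`.  The number of pairs `(m, N)` is `≤ (n+1)²`, and `T³ + 2 + 4λ ≤ m₀`. -/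
def StMID : Prop := ∀ (p ε C ε₀ : ℝ), 0 < p → p ≤ 1 - 1 / Real.exp 2 → 0 < ε → ε ≤ 1 / 24 → 1 ≤ C →
  0 < ε₀ → ε₀ ≤ 1 / 4 → ∃ (J : ℕ) (δ : ℝ), 0 < δ ∧ ∃ n0 : ℕ, ∀ (C₀ s m₀ : ℝ) (n T : ℕ) (th : ℝ)
    (κ₀ κ : ℕ → ℝ) (lam mu : ℝ) (P : Finset (Finset (Fin n))), n0 ≤ n → Win p ε n T th →
  Par p ε C δ n T th κ₀ lam mu → Good p C₀ δ s n T J κ₀ P → 0 ≤ s → s ≤ (n : ℝ) ^ (1 - ε) →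
  Wt n T κ → (n : ℝ) ^ (1 - th + ε) ≤ m₀ →
  ∑ Q ∈ (Pt (Fin n)).filter (fun Q => m₀ ≤ (bigS (RR ε T) P Q).card ∧
      ((bigS (RR ε T) P Q).card : ℝ) ≤ (1 - ε₀) * P.card),
    pw (gf κ) Q * (1 / (1 - p)) ^ ovl P Q ≤
    (n.factorial : ℝ) * Real.exp (∑ v ∈ range (T + 2), κ v - m₀)

open Classical in
/-- SML (many pairs in small blocks).  Uses `StOVN`, `StFBD`, `StFAC`, `StSIZ`.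

PROOF.  `ws = e^{(1+ε/8)L}`, `b = e^L`.  `ovB ≤ |bigS| (T+1)² ≤ n^{th+6ε}(T+1)² ≤ n^{th+7ε}/2`, so `ovl - ovB ≥ n^{th+7ε}/2` and `b^{ovl} = b^{ovB} ws^{ovl-ovB} e^{-(εL/8)(ovl-ovB)} ≤ b^{ovB} ws^{ovl-ovB} e^{-(εL/16) n^{th+7ε}}`.
OVN for all `N` and all `I ⊆ P`, `|I| ≤ n^{th+6ε}` (`N ≥ n - |I|(T+1) ≥ n/2`): `n(Y - ph Y) ≤ nY² ≤ (n^{th+6ε}(T+1))²/n ≤ n^{th+ε}` (`th ≤ 1 - 12ε`), `FF ≤ n^{-th+ε}`,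
`∑_I ∏ FF ≤ (1 + n^{-th+ε})^{|P|} ≤ exp(n^{1-th+ε}) ≤ exp(n^{th+ε})` (`|P| ≤ n`, `th ≥ 1/2`).  Total exponent `≤ -(εL/16) n^{th+7ε} + 2 n^{th+ε} + T³ + 2 + 3λ ≤ -n^{th+6ε}`. -/
def StSML : Prop := ∀ (p ε : ℝ), 0 < p → p ≤ 1 - 1 / Real.exp 2 → 0 < ε → ε ≤ 1 / 24 →
  ∃ n0 : ℕ, ∀ (n T : ℕ) (th : ℝ) (κ : ℕ → ℝ) (P : Finset (Finset (Fin n))), n0 ≤ n →
  Win p ε n T th → Wt n T κ → P ∈ Pt (Fin n) → (∀ C ∈ P, C.card ≤ T + 1) →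
  ∑ Q ∈ (Pt (Fin n)).filter (fun Q => ((bigS (RR ε T) P Q).card : ℝ) ≤ (n : ℝ) ^ (th + 6 * ε) ∧
      (n : ℝ) ^ (th + 7 * ε) < ovl P Q),
    pw (gf κ) Q * (1 / (1 - p)) ^ ovl P Q ≤
    (n.factorial : ℝ) * Real.exp (∑ v ∈ range (T + 2), κ v - (n : ℝ) ^ (th + 6 * ε))

open Classical in
/-- MNO (the main term of the second moment).  Uses `StOVN`, `StFBD`, `StFAC`, `StSIZ`.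

PROOF.  OVN with `ws = b` for all `N` and `I ⊆ P`, `|I| ≤ n^{1-th+ε}`: `n(Y - ph Y) ≤ (n^{1-th+ε}(T+1))²/n ≤ n^{5ε/2}` (`th ≥ 1/2`).  `∑_I ∏_I (e^{2η} FF) ≤ exp(e^{2η} ∑_{C ∈ P} FF |C|)`, by FBD (both parts, `J = 1`, `δ = ε/4`;
`|C| ≤ T`) `∑_P FF ≤ kT (κ T/e^{hv T} + n^{-1-th+ε/4}) + n · n^{-th-1+ε/4} ≤ kT κ T/e^{hv T} + 1`, and `(e^{2η} - 1) kT κ T/e^{hv T} ≤ 4 n^{-th+ε} · 2n² · n^{-1-th+ε/4} ≤ n^{2ε}` (`κ T ≤ 2n`, `hv T ≥ (1+th-ε/4)λ`).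
Total: `T³ + 2 + 3λ + n^{5ε/2} + 2 + n^{2ε} ≤ n^{3ε}`. -/
def StMNO : Prop := ∀ (p ε : ℝ), 0 < p → p ≤ 1 - 1 / Real.exp 2 → 0 < ε → ε ≤ 1 / 24 →
  ∃ n0 : ℕ, ∀ (n T kT : ℕ) (th η : ℝ) (κ : ℕ → ℝ) (P : Finset (Finset (Fin n))), n0 ≤ n →
  Win p ε n T th → Wt n T κ → κ (T + 1) = 0 → P ∈ Pt (Fin n) → (∀ C ∈ P, C.card ≤ T) →
  (P.filter (fun C => C.card = T)).card = kT → 0 ≤ η → η ≤ (n : ℝ) ^ (-th + ε) →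
  ∑ Q ∈ (Pt (Fin n)).filter (fun Q => ((bigS (RR ε T) P Q).card : ℝ) ≤ (n : ℝ) ^ (1 - th + ε)),
    pw (gf κ) Q * (1 / (1 - p)) ^ ovl P Q * Real.exp (2 * η * (bigS (RR ε T) P Q).card) ≤
    (n.factorial : ℝ) * Real.exp (∑ v ∈ range (T + 2), κ v + kT * κ T / Real.exp (hv p n T) +
      (n : ℝ) ^ (3 * ε))

/-! ### nearly identical partitions -/

/-- `ξ = e^{mu'}` -/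
noncomputable def xi (n T N : ℕ) : ℝ := (N : ℝ) * n / T

/-- `Ω = ∑ ξ^v om v` -/
noncomputable def Om (p : ℝ) (n T N : ℕ) : ℝ := ∑ v ∈ Icc 1 (T + 1), xi n T N ^ v * om p v

/-- the factor of a matched class of size `c`; `d` new vertices, `e` lost vertices; `a` is the Chernoff exponent -/
noncomputable def SF (p a : ℝ) (n T R N c : ℕ) : ℝ :=
  ∑ r ∈ Ioc R c, ∑ v ∈ Icc r (T + 1), (c.choose r : ℝ) * ((T : ℝ) * (n : ℝ) ^ (a - 1)) ^ (c - r) *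
    xi n T N ^ (v - r) * (1 / (1 - p)) ^ (r.choose 2) / (1 / (1 - p)) ^ (v.choose 2) /
    ((v - r).factorial : ℝ)

/-- `1 + 2 ∑_{d ≥ 1} (y b^i)^d b^{-d(d-1)/2}`, `d ≤ T + 1` -/
noncomputable def Ps (L y : ℝ) (T i : ℕ) : ℝ :=
  1 + 2 * ∑ d ∈ Icc 1 (T + 1), (y * Real.exp (L * i)) ^ d * Real.exp (-(L * (d * (d - 1)) / 2))

/-- the condition on the small classes of `P` (as in `Good.small`), `K₀ ≤ 2n/T` -/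
def Sml (p C₀ s K₀ : ℝ) (n T : ℕ) (P : Finset (Finset (Fin n))) : Prop :=
  P ∈ Pt (Fin n) ∧ (∀ C ∈ P, C.card ≤ T + 1) ∧ 0 ≤ K₀ ∧ K₀ * T ≤ 2 * n ∧ (P.card : ℝ) * T ≤ 2 * n ∧
  ∀ h, h ≤ T → ∑ C ∈ P.filter (fun C => h ≤ T - C.card), ((T - C.card : ℕ) : ℝ) ^ 2 ≤
    C₀ * (s + K₀ * Real.exp (-(bb p * (h : ℝ) ^ 2 / 4)))

open Classical in
/-- NIT (overlap sum with the tilt `ξ`).  Uses `StOVL`, `StGAM`.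

PROOF.  `q = 1-p`, `ξ = xi`, `Ω = Om`, `g v = q^{C(v,2)} ξ^v t/Ω` for `1 ≤ v ≤ T+1` (`0` otherwise), so `∑ g v/v! = t` and `pw g Q = q^{inn Q} ξ^n (t/Ω)^{|Q|}` if all classes have size `≤ T+1`.
`Ω ≥ ξ ≥ n ≥ t` (`N ≥ T`) and `|Q| ≤ |I| + t`, so `q^{inn Q} ≤ pw g Q ξ^{-n} (Ω/t)^{|I|+t}` (real power).  OVL with `w = ws = b`, `z = N n^a`, GAM:
`∑_Q q^{inn Q} b^{ovl} ≤ ξ^{-n} (Ω/t)^{|I|+t} e^{T³+t} N! z^{n-N} ∏_I ∑_{r,v} C(c,r) b^{C(r,2)} z^{-r} q^{C(v,2)} ξ^v (t/Ω)/(v-r)!`.  The powers of `t/Ω` cancel up to `(Ω/t)^t`.  `n = N₀ + ∑_I c`,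
`n - N = ∑_I c - (N - N₀)` (if a `Q` exists then `N ≥ N₀`), so it is `(eΩ/t)^t e^{T³} ξ^{-N₀} N! z^{-(N-N₀)} ∏_I ∑_{r,v} C(c,r) (z/ξ)^{c-r} ξ^{v-r} b^{C(r,2)-C(v,2)}/(v-r)!` with `z/ξ = T n^{a-1}`: this is `SF`.
`N! ≤ N₀! N^{N-N₀}`, `N₀! ≤ N^{N₀}`, so `ξ^{-N₀} N! z^{-(N-N₀)} ≤ (N/ξ)^{N₀} n^{-a(N-N₀)} = (T/n)^{N₀} n^{-a(N-N₀)}`. -/
def StNIT : Prop := ∀ (p ε : ℝ), 0 < p → p ≤ 1 - 1 / Real.exp 2 → 0 < ε → ε ≤ 1 / 24 →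
  ∃ n0 : ℕ, ∀ (n T N N₀ : ℕ) (th a t : ℝ) (P I : Finset (Finset (Fin n))), n0 ≤ n →
  Win p ε n T th → P ∈ Pt (Fin n) → (∀ C ∈ P, C.card ≤ T + 1) → I ⊆ P →
  (n : ℝ) ^ (1 / 2 + ε) ≤ N → N₀ = n - ∑ C ∈ I, C.card → 1 ≤ t → t ≤ n → 0 ≤ a →
  ∑ Q ∈ (Pt (Fin n)).filter (fun Q => (∀ B ∈ Q, B.card ≤ T + 1) ∧ (Q.card : ℝ) ≤ I.card + t ∧
      bigS (RR ε T) P Q = I ∧ NR (RR ε T) P Q = N), (1 - p) ^ inn Q * (1 / (1 - p)) ^ ovl P Q ≤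
    Real.exp ((T : ℝ) ^ 3) * (Real.exp 1 * Om p n T N / t) ^ t * ((T : ℝ) / n) ^ N₀ *
      (n : ℝ) ^ (-a * ((N : ℝ) - N₀)) * ∏ C ∈ I, SF p a n T (RR ε T) N C.card

/-- NIS (the factor of a matched class).  Uses `StSIZ`.

PROOF.  `c ≤ R`: `SF = 0`.  `ζ = T n^{a-1}`, `r = c - e`, `v = r + d`, `d ≤ T + 1 - r ≤ T - R ≤ (1/2 - ε/2)T`, `C(v,2) = C(r,2) + rd + C(d,2)`: the term is `≤ ((T+1) ζ)^e ξ^d b^{-(c-e)d - C(d,2)} = ((T+1) ζ b^d)^e (ξ b^{-c})^d b^{-C(d,2)}`.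
`d = 0`: `∑_e ((T+1)ζ)^e ≤ 1 + 4T² n^{a-1}`.  `d ≥ 1`: `b^d ≤ n^{(1/2-ε/2)(2+δ)} ≤ n^{1-3ε/4}`, `(T+1) ζ b^d ≤ T(T+1) n^{a - 3ε/4} ≤ 1/2` (`a ≤ ε/4`), so the sum over `e` gives a factor `≤ 2`.  `ξ b^{-c} ≤ y b^{(T-c)}` with natural subtraction
(`c = T+1`: `b^{-1} ≤ 1`), as `b^{-T} ≤ e³ T²/n²` (SIZ t2): `ξ b^{-T} ≤ e³ N T/n = y`. -/
def StNIS : Prop := ∀ (p ε : ℝ), 0 < p → p ≤ 1 - 1 / Real.exp 2 → 0 < ε → ε ≤ 1 / 24 →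
  ∃ n0 : ℕ, ∀ (n T N c : ℕ) (th a : ℝ), n0 ≤ n → Win p ε n T th → 0 ≤ a → a ≤ ε / 4 →
  c ≤ T + 1 → 1 ≤ N → N ≤ n →
  0 ≤ SF p a n T (RR ε T) N c ∧ SF p a n T (RR ε T) N c ≤
    Ps (bb p) (Real.exp 3 * N * T / n) T (T - c) + 4 * (T : ℝ) ^ 2 * (n : ℝ) ^ (a - 1)

/-- NIQ (bound for `Ps`).

PROOF.  `x = y e^{Li}`.  (1) `x ≤ 1/4`: `2 ∑_{d≥1} x^d ≤ (8/3) x`.  (2) `x > 1/4`, `ℓ = max(ln x, 0)`: `x^d e^{-Ld(d-1)/2} ≤ exp(dℓ - Ld(d-1)/2)`; for `d ≥ d₀ = 4ℓ/L + 4` this is `≤ e^{-Ld/4}`-like (`dℓ ≤ L d(d-4)/4`),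
summable with a constant depending on `L`; for `d < d₀` it is `≤ exp((ℓ + L/2)²/(2L))`.  So `Ps ≤ C_L (1+ℓ) exp((ℓ+L/2)²/(2L))`, `ln Ps ≤ C(1 + ℓ²)`, `ℓ ≤ Li + max(ln y, 0)`. -/
def StNIQ : Prop := ∀ L : ℝ, 0 < L → L ≤ 2 → ∃ C : ℝ, 1 ≤ C ∧ ∀ (y : ℝ) (T i : ℕ), 0 < y →
  0 ≤ Real.log (Ps L y T i) ∧
  (y * Real.exp (L * i) ≤ 1 / 4 → Real.log (Ps L y T i) ≤ 3 * (y * Real.exp (L * i))) ∧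
  Real.log (Ps L y T i) ≤ C * (1 + (i : ℝ) ^ 2 + (max (Real.log y) 0) ^ 2)

open Classical in
/-- NIP (the product of the factors).  Uses `StNIS`, `StNIQ`.

PROOF.  `L = bb p`, `y = e³NT/n`, `i_C = T - |C|`.  NIS: `ln SF ≤ ln Ps + 4T² n^{a-1}` (`Ps ≥ 1`, `ln(u + v) ≤ ln u + v`), and `|P| 4T² n^{a-1} ≤ 8 T n^{a} ≤ n^{ε/2}` (`≤ N`).  It remains to bound `∑_P ln Ps(i_C) ≤ C₇(yK₀ + y|P| + s)`, and `yK₀ ≤ 2e³N`, `y|P| ≤ 2e³N`.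
Case `y ≤ 1/4`, `h₀ = ⌊ln(1/(4y))/L⌋`: (i) `i_C ≤ h₀`: `ln Ps ≤ 3 y b^{i_C}`, `b^i ≤ 1 + ∑_{l=1}^{i} b^l`, so `∑ b^{i_C} ≤ |P| + ∑_{l=1}^{h₀} b^l #{i_C ≥ l}`, `#{i_C ≥ l} ≤ ∑_{i_C ≥ l} i_C² ≤ C₀(s + K₀ e^{-Ll²/4})` (`l ≤ T`; no class for `l > T`);
`∑_l e^{Ll - Ll²/4} ≤ C_L`, `∑_{l≤h₀} b^l ≤ C_L b^{h₀} ≤ C_L/(4y)`.  (ii) `i_C ≥ h = h₀ + 1 ≥ 1`: `ln Ps ≤ C(1 + i_C²) ≤ 2C i_C²`, sum `≤ 2C C₀(s + K₀ e^{-Lh²/4})`, and `Lh ≥ u = ln(1/(4y))`, `e^{-Lh²/4} ≤ e^{-u²/(4L)} ≤ C_L e^{-u} = 4 C_L y`.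
Case `y > 1/4`: `ln Ps ≤ C(1 + i_C² + ln(4y)² + ..)`: sum `≤ C'(|P|(1 + (max (ln y) 0)²) + C₀(s + K₀))` and `1 + (max (ln y) 0)² ≤ C'' y`, `1 ≤ 4y`. -/
def StNIP : Prop := ∀ (p ε C₀ : ℝ), 0 < p → p ≤ 1 - 1 / Real.exp 2 → 0 < ε → ε ≤ 1 / 24 → 1 ≤ C₀ →
  ∃ C₉ : ℝ, 1 ≤ C₉ ∧ ∃ n0 : ℕ, ∀ (n T N : ℕ) (th a s K₀ : ℝ) (P I : Finset (Finset (Fin n))), n0 ≤ n →
  Win p ε n T th → Sml p C₀ s K₀ n T P → I ⊆ P → 0 ≤ a → a ≤ ε / 4 → 0 ≤ s →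
  (n : ℝ) ^ (1 / 2 + ε) ≤ N → N ≤ n →
  ∏ C ∈ I, SF p a n T (RR ε T) N C.card ≤ Real.exp (C₉ * (N + s))

/-- NIO (bound for `Ω`).  Uses `StSIZ`.

PROOF.  `ξ^v om v = e^{hv v} (ξ/n)^v = e^{hv v} X^v`, `X = N/T`.  `e^{hv(T-i)} = e^{hv T} ∏_{l<i} ((T-l) b^{T-l-1}/n) ≤ n² (T b^T/n)^i b^{-i²/2} ≤ n² (e³n/T)^i b^{-i²/2}` (SIZ: `e^{hv T} ≤ n²`, `b^T ≤ e³n²/T²`; `∑_{l<i}(l+1) ≥ i²/2`), and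
`e^{hv(T+1)} = e^{hv T} n/((T+1)b^T) ≤ e³ T n`.  So `Ω ≤ n² X^T ∑_{i<T} (e³n/(TX))^i b^{-i²/2} + e³Tn X^{T+1}`, `TX = N`, `(e³n/N)^i b^{-i²/2} ≤ exp((3 + ln(n/N))²/(2L))`, and `T X ≤ n` for the last term. -/
def StNIO : Prop := ∀ (p ε : ℝ), 0 < p → p ≤ 1 - 1 / Real.exp 2 → 0 < ε → ε ≤ 1 / 24 →
  ∃ n0 : ℕ, ∀ (n T N : ℕ) (th : ℝ), n0 ≤ n → Win p ε n T th → T ≤ N → N ≤ n →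
  Om p n T N ≤ (n : ℝ) ^ 3 * ((N : ℝ) / T) ^ T *
    Real.exp ((3 + Real.log ((n : ℝ) / N)) ^ 2 / (2 * bb p)) ∧ (n : ℝ) ≤ Om p n T N

/-- NIR (the unmatched part).  Uses `StNIO`, `StSIZ`.

PROOF.  `Λ = ln(n/N) ∈ [0, λ/2]`, `X = N/T`, `ln(n/T) = ln X + Λ`, `t = t₀ + s + 1`.  `N₀ ≥ t₀ T - D`.  By NIO (and `t ≥ 1`)
`t ln(eΩ/t) - N₀ ln(n/T) ≤ t[1 + 3λ + T ln X + (3+Λ)²/(2L)] - (t₀T - D)(ln X + Λ) ≤ (s+1) T λ + t[1 + 3λ + (3+Λ)²/(2L)] + Dλ - t₀TΛ` (`0 ≤ ln X ≤ λ`).  `Λ² ≤ λΛ/2`, so `t₀(3+Λ)²/(2L) ≤ t₀ λΛ/(4L) + C t₀ λ`, and `TΛ ≥ (7/(4L)) λΛ` (SIZ t1, small `δ`).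
Together: `≤ -(3/(2L)) t₀ Λ λ + C t₀ λ + C(s+1)λ² + Dλ`. -/
def StNIR : Prop := ∀ (p ε : ℝ), 0 < p → p ≤ 1 - 1 / Real.exp 2 → 0 < ε → ε ≤ 1 / 24 →
  ∃ C₁ : ℝ, 1 ≤ C₁ ∧ ∃ n0 : ℕ, ∀ (n T N N₀ t₀ : ℕ) (th s D : ℝ), n0 ≤ n → Win p ε n T th →
  (n : ℝ) ^ (1 / 2 + ε) ≤ N → N ≤ n → 0 ≤ s → 0 ≤ D → (t₀ : ℝ) * T - D ≤ N₀ →
  (t₀ + s + 1) * Real.log (Real.exp 1 * Om p n T N / (t₀ + s + 1)) -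
      N₀ * Real.log ((n : ℝ) / T) ≤
    -(3 / (2 * bb p)) * t₀ * Real.log ((n : ℝ) / N) * Real.log n + C₁ * t₀ * Real.log n +
      C₁ * (s + 1) * Real.log n ^ 2 + D * Real.log n

/-- the bound of NIT for one set `I` of matched classes -/
noncomputable def NB (p ε a t : ℝ) (n T N N₀ : ℕ) (I : Finset (Finset (Fin n))) : ℝ :=
  Real.exp ((T : ℝ) ^ 3) * (Real.exp 1 * Om p n T N / t) ^ t * ((T : ℝ) / n) ^ N₀ *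
    (n : ℝ) ^ (-a * ((N : ℝ) - N₀)) * ∏ C ∈ I, SF p a n T (RR ε T) N C.card

open Classical in
/-- NIA (most of the `N` vertices come from matched classes).  Uses `StNIP`, `StNIR`, `StSIZ`.

PROOF.  `L = bb p`, `k = |P|`, `t = t₀ + s + 1`, `D = ∑_{C∉I} (T-|C|)` (natural subtraction), `N₀ = ∑_{C∉I}|C| ≥ t₀T - D`; `a = ε/4`: the factor `n^{-(ε/4)(N-N₀)} ≤ n^{-εN/8}`.  The number of `C ∉ I` with `|C| ≥ T/2` is `≤ 2N₀/T ≤ N/T`, the number of the others is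
`≤ ∑_{T - |C| ≥ T/2} (T-|C|)² ≤ C₀(s + K₀e^{-LT²/16}) ≤ C₀(s+1)`, so `t₀ ≤ N/T + C₀(s+1) ≤ 2N/T` (`s n^{ε/2} ≤ N`).  For `1 ≤ h ≤ T`: `D ≤ t₀ h + ∑_{T-|C| ≥ h} (T-|C|)² ≤ t₀h + C₀(s + K₀ e^{-Lh²/4})`, with
`h = ⌈√(8λ/L)⌉`: `D ≤ t₀(√(8λ/L)+1) + C₀(s+1)`.  `C(k,t₀) ≤ exp(t₀(1+λ))`.  NIR (its first term is `≤ 0`) and NIP: the exponent is `≤ T³ + t₀(1+λ) + C t₀ λ^{3/2} + C(s+1)λ² + C₉(N+s) - εNλ/8 ≤ -3N` for large `n`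
(`t₀ ≤ 2N/T`, `T ≥ λ/L`). -/
def StNIA : Prop := ∀ (p ε C₀ : ℝ), 0 < p → p ≤ 1 - 1 / Real.exp 2 → 0 < ε → ε ≤ 1 / 24 → 1 ≤ C₀ →
  ∃ n0 : ℕ, ∀ (n T N N₀ t₀ : ℕ) (th s K₀ : ℝ) (P I : Finset (Finset (Fin n))), n0 ≤ n →
  Win p ε n T th → Sml p C₀ s K₀ n T P → I ⊆ P → 0 ≤ s → s * (n : ℝ) ^ (ε / 2) ≤ N →
  (n : ℝ) ^ (1 / 2 + ε) ≤ N → N ≤ n → N₀ = n - ∑ C ∈ I, C.card → P.card = I.card + t₀ → 2 * N₀ < N →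
  (P.card.choose t₀ : ℝ) * NB p ε (ε / 4) (t₀ + s + 1) n T N N₀ I ≤ Real.exp (-(3 * (N : ℝ)))

open Classical in
/-- NIB (most of the `N` vertices come from unmatched classes).  Uses `StNIP`, `StNIR`, `StSIZ`.

PROOF.  As in NIA: `N₀ ≥ t₀T - D`, `D ≤ t₀ h + C₀(s + K₀ e^{-Lh²/4})`.  `N ≤ 2N₀ ≤ 2t₀(T+1)`, so `t₀ ≥ 1`; `a = 0`.  `ℓ = ln(n/(T t₀))`, `ℓ ≥ ln(1/(2ε₀))` (`k ≤ 2n/T`), `ℓ ≤ λ`; `Λ = ln(n/N) ≥ ℓ - 2`.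
`h = ⌈√(4ℓ/L)⌉ + 1 ≤ T`: `K₀e^{-Lh²/4} ≤ 2t₀` (`K₀ ≤ 2n/T`), `D ≤ t₀(√(4ℓ/L) + 2 + 2C₀) + C₀ s`.  `C(k,t₀) ≤ (ek/t₀)^{t₀} ≤ exp(t₀(ℓ+2))`.
The exponent is `≤ T³ + t₀(ℓ+2) - (3/(2L)) t₀(ℓ-2)λ + C t₀λ(1+√ℓ) + C(s+1)λ² + C₉(N+s)`, and `C₉N ≤ C t₀ λ`, so `≤ -(3/(2L)) t₀ℓλ + C' t₀λ(1+√ℓ) + [T³ + C'(s+1)λ²]` (`t₀(ℓ+2)` is absorbed).  Choose `ε₀` so small that
`C'(1+√ℓ) ≤ ℓ/(2L)` and `ℓ ≥ 40` for all `ℓ ≥ ln(1/(2ε₀))`: `≤ -(1/L) t₀ ℓ λ + [..] ≤ -4N + [..] ≤ -3N` (`N ≤ 2t₀(T+1) ≤ (5/L) t₀ λ`; `[..] ≤ N` as `N ≥ s n^{ε/2}`, `N ≥ n^{1/2+ε}`). -/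
def StNIB : Prop := ∀ (p ε C₀ : ℝ), 0 < p → p ≤ 1 - 1 / Real.exp 2 → 0 < ε → ε ≤ 1 / 24 → 1 ≤ C₀ →
  ∃ ε₀ : ℝ, 0 < ε₀ ∧ ε₀ ≤ 1 / 4 ∧
  ∃ n0 : ℕ, ∀ (n T N N₀ t₀ : ℕ) (th s K₀ : ℝ) (P I : Finset (Finset (Fin n))), n0 ≤ n →
  Win p ε n T th → Sml p C₀ s K₀ n T P → I ⊆ P → 0 ≤ s → s * (n : ℝ) ^ (ε / 2) ≤ N →
  (n : ℝ) ^ (1 / 2 + ε) ≤ N → N ≤ n → N₀ = n - ∑ C ∈ I, C.card → P.card = I.card + t₀ → N ≤ 2 * N₀ →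
  (t₀ : ℝ) ≤ ε₀ * P.card →
  (P.card.choose t₀ : ℝ) * NB p ε 0 (t₀ + s + 1) n T N N₀ I ≤ Real.exp (-(3 * (N : ℝ)))

open Classical in
/-- NI (nearly identical partitions).  Uses `StNIT`, `StNIA`, `StNIB`.

PROOF.  Sum over the `I ⊆ P` with `|I| > (1-ε₀)|P|` (`I = bigS`); `t₀ = |P| - |I|`, `t = t₀ + s + 1 ≤ n` (`|P| T ≤ 2n`, `s n^{ε/2} ≤ N ≤ n`), `|Q| ≤ |P| + s ≤ |I| + t`.  NIT with `a = ε/4` if `2N₀ < N`, with `a = 0` otherwise: every `I` contributes at most `NB`, and by NIA, NIB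
`NB ≤ e^{-3N}/C(k,t₀)`; there are `C(k,t₀)` sets `I` with the same `t₀`, and `t₀ ≤ n`: `(n+1) e^{-3N} ≤ e^{-N}`.  (`N > n`: no `Q`.) -/
def StNI : Prop := ∀ (p ε C₀ : ℝ), 0 < p → p ≤ 1 - 1 / Real.exp 2 → 0 < ε → ε ≤ 1 / 24 → 1 ≤ C₀ →
  ∃ ε₀ : ℝ, 0 < ε₀ ∧ ε₀ ≤ 1 / 4 ∧ ∃ n0 : ℕ, ∀ (n T N : ℕ) (th s K₀ : ℝ)
    (P : Finset (Finset (Fin n))), n0 ≤ n → Win p ε n T th → Sml p C₀ s K₀ n T P → 0 ≤ s →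
  s * (n : ℝ) ^ (ε / 2) ≤ N → (n : ℝ) ^ (1 / 2 + ε) ≤ N →
  ∑ Q ∈ (Pt (Fin n)).filter (fun Q => (∀ B ∈ Q, B.card ≤ T + 1) ∧ (Q.card : ℝ) ≤ P.card + s ∧
      (1 - ε₀) * P.card < (bigS (RR ε T) P Q).card ∧ NR (RR ε T) P Q = N),
    (1 - p) ^ inn Q * (1 / (1 - p)) ^ ovl P Q ≤ Real.exp (-(N : ℝ))

end Pool.Agent.Helper69.UX
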