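import Pool.Agent.Helper69.UX.StA
import Pool.Agent.Helper69.UX.StD

/-!
# Project UX (MP_e12aa9_pr), part E: assembly.  Statements with proofs

Notation: `L = bb p`, `b = 1/(1-p) = e^L`, `λ = ln n`, `R = RR ε T`, `A = T + 1`, `K = KK T κ`.
-/

set_option autoImplicit false

namespace Pool.Agent.Helper69.UX

open Finset Filter Pool.Agent.Helper82.CN Pool.Agent.Helper11.PV Pool.Agent.Helper69.VX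

open Classical in
/-- the relevant partitions: class sizes at most `T+1`, at most `n^{th+2ε}` classes of size `T+1`, at most `K + n^{th+3ε}` classes -/
noncomputable def QQ (ε : ℝ) (n T : ℕ) (th : ℝ) (κ : ℕ → ℝ) : Finset (Finset (Finset (Fin n))) :=
  (Pt (Fin n)).filter (fun P => (∀ A ∈ P, A.card ≤ T + 1) ∧
    (((P.filter (fun A => A.card = T + 1)).card : ℕ) : ℝ) ≤ (n : ℝ) ^ (th + 2 * ε) ∧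
    (P.card : ℝ) ≤ KK T κ + (n : ℝ) ^ (th + 3 * ε))

/-- `κ` with the value `1` at `T + 1` -/
noncomputable def kD (T : ℕ) (κ : ℕ → ℝ) (v : ℕ) : ℝ := if v = T + 1 then 1 else κ v

open Classical in
/-- TIL (first moment with a tilt).  Uses `StTLT`, `StSIZ`.

PROOF.  For `u ≤ T`: `q^{C(u,2)} = u! om u = u! κ u e^{-lam - mu u}`; for `u = T+1`: `q^{C(u,2)} = u! om u ≤ u! C n e^{-lam-mu u}` (Par.nxt).  So for `P ∈ QQ`, with `j ≤ n^{th+2ε}` classes of size `T+1`: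
`q^{inn P} ≤ e^{-lam|P| - mu n} (Cn)^j pw (gf (kD T κ)) P`.  (Par.ent): `n! e^{-mu n - lam K + K} = exp(n^{th+3ε})`, `-lam > 0`, `|P| ≤ K + n^{th+3ε}`, `-lam ≤ λ³`:
`q^{inn P} ≤ exp(n^{th+4ε}/2 - 2) pw (gf (kD T κ)) P/(n! e^K)` for large `n` (`(1 + λ³) n^{th+3ε} + n^{th+2ε} ln(Cn) ≤ n^{th+4ε}/2 - 2`), which is (1) (`∑ kD = K + 1`); if `|P| ≤ K - s` there is the additional factor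
`e^{lam s} ≤ e^{-s}` (`lam ≤ -1`).  (2), (3): `1 ≤ e^{-a} ∏ e^{ψ|A|}` if `a ≤ ∑ ψ|A|`; TLT with `g v = gf (kD T κ) v e^{ψ v}` (`v ≤ T+1`): `∑ ≤ n! exp(∑ κ u e^{ψ u} + e^{ψ(T+1)})`. -/
def StTIL : Prop := ∀ (p ε C : ℝ), 0 < p → p ≤ 1 - 1 / Real.exp 2 → 0 < ε → ε ≤ 1 / 24 → 1 ≤ C →
  ∃ n0 : ℕ, ∀ (δ : ℝ) (n T : ℕ) (th : ℝ) (κ : ℕ → ℝ) (lam mu : ℝ), n0 ≤ n → Win p ε n T th →
  Par p ε C δ n T th κ lam mu →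
  Wt n T (kD T κ) ∧
  (∀ P ∈ QQ ε n T th κ, (1 - p) ^ inn P ≤ Real.exp ((n : ℝ) ^ (th + 4 * ε) / 2) *
    pw (gf (kD T κ)) P / ((n.factorial : ℝ) * Real.exp (∑ v ∈ range (T + 2), kD T κ v))) ∧
  (∀ (ψ : ℕ → ℝ) (a : ℝ), (∀ u, 0 ≤ ψ u) →
    ∑ P ∈ (QQ ε n T th κ).filter (fun P => a ≤ ∑ A ∈ P, ψ A.card), (1 - p) ^ inn P ≤
      Real.exp ((n : ℝ) ^ (th + 4 * ε) / 2 - a + ∑ u ∈ range (T + 1), κ u * (Real.exp (ψ u) - 1) +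
        Real.exp (ψ (T + 1)))) ∧
  (∀ s : ℝ, 0 ≤ s →
    ∑ P ∈ (QQ ε n T th κ).filter (fun P => (P.card : ℝ) ≤ KK T κ - s), (1 - p) ^ inn P ≤
      Real.exp ((n : ℝ) ^ (th + 4 * ε) / 2 + 3 - s))

open Classical in
/-- GFM (bad partitions are rare).  Uses `StTIL`, `StSIZ`.

PROOF.  `s = n^{th+5ε}`.  Second claim: TIL (3) with `ψ = 0`, `a = 0`.  A `P ∈ QQ` which is not good violates num1, or hinge for some `j ≤ J`, or small for some `h ≤ T` (`num2`: `n^{th+3ε} ≤ s`).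
num1: TIL (4).  hinge `j`: TIL (3) with `ψ u = x (T-j-u)₊`, `a = x(D_j + δK)`, `D_j = ∑ κ u (T-j-u)₊`: `e^y - 1 ≤ y + y² e^y`, so `∑ κ u (e^{ψ u} - 1) ≤ x D_j + x² ∑ κ(T-i) i² e^{i}` (`x ≤ 1`) `≤ x D_j + x² C' K` (Par.tail, `C' = ∑ C^{i+1} i² e^{i - Li²/2}`);
with `x = min(1, δ/(2C'))` the exponent is `≤ n^{th+4ε}/2 + 1 - xδK/2`, `K ≥ n/T`.  small `h`: `ψ u = (L/8)(T-u)²` if `h ≤ T - u` (natural subtraction), `0` otherwise (`ψ (T+1) = 0`), `a = (L/8) C₀(s + K e^{-Lh²/4})` (strictly less than the sum): `∑ κ u(e^{ψ u} - 1) ≤ K ∑_{i ≥ h} C^{i+1} e^{-3Li²/8} ≤ C'' K e^{-Lh²/4}`,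
`C'' = ∑ C^{i+1} e^{-Li²/8}`.  For `C₀ ≥ C₁ = 8(C''+1)/L + 1` the exponent is `≤ n^{th+4ε}/2 + 1 - (L/8)C₀ s ≤ -2 n^{th+4ε}` for large `n`.  At most `J + T + 3` events. -/
def StGFM : Prop := ∀ (p ε C : ℝ), 0 < p → p ≤ 1 - 1 / Real.exp 2 → 0 < ε → ε ≤ 1 / 24 → 1 ≤ C →
  ∃ C₁ : ℝ, 1 ≤ C₁ ∧ ∀ (C₀ δ : ℝ) (J : ℕ), C₁ ≤ C₀ → 0 < δ → ∃ n0 : ℕ, ∀ (n T : ℕ) (th : ℝ)
  (κ : ℕ → ℝ) (lam mu : ℝ), n0 ≤ n → Win p ε n T th → Par p ε C δ n T th κ lam mu →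
  ∑ P ∈ (QQ ε n T th κ).filter (fun P => ¬ Good p C₀ δ ((n : ℝ) ^ (th + 5 * ε)) n T J κ P),
    (1 - p) ^ inn P ≤ Real.exp (-(n : ℝ) ^ (th + 4 * ε)) ∧
  ∑ P ∈ QQ ε n T th κ, (1 - p) ^ inn P ≤ Real.exp ((n : ℝ) ^ (th + 4 * ε))

open Classical in
/-- DSM (pairs of colourings).  Uses `StTIL`, `StSML`, `StMID`, `StNI`, `StCRU`, `StSIZ`.

PROOF.  `t = n^{th+8ε-1}`, `((1-tp)/(1-p))^{ovl} = b^{ovl} (1-tp)^{ovl} ≤ b^{ovl}`.  `ε₀` from NI (for `C₀`), `J, δ` from MID (for `ε₀`); `κ' = kD T κ`, `s = n^{th+5ε}`, `m = |bigS|`, `N = NR`.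
(0) `m ≤ n^{th+6ε}`: TIL (2), SML: `≤ exp(n^{th+4ε}/2 - n^{th+6ε})`.  (1) `n^{th+6ε} ≤ m ≤ (1-ε₀)|P|`: TIL (2), MID with `m₀ = n^{th+6ε} ≥ n^{1-th+ε}`: the same.
(2) `m > (1-ε₀)|P|`, `N ≥ n^{th+6ε}`: NI with `2s` instead of `s`, `K₀ = K` (`Sml` from Good: `K(T - m̄) = n` with `m̄ ≤ 2/L + δ ≤ T/2`; `|P| ≤ K + s`; `|Q| ≤ K + n^{th+3ε} ≤ |P| + 2s`; `2s n^{ε/2} ≤ N`; `n^{1/2+ε} ≤ N`): `∑_N e^{-N} ≤ n e^{-n^{th+6ε}}`.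
(3) `m > (1-ε₀)|P|`, `N < n^{th+6ε}`: CRU with `N₁ = ⌈n^{th+6ε}⌉`: at most `(n+1)^{3N₁}` `Q`'s, `(1-p)^{inn Q} b^{ovl} ≤ 1` (`ovl ≤ inn Q`), and `ovl ≥ (n - N₁)R/2 ≥ n/4`: `(1-tp)^{ovl} ≤ exp(-(p/4) n^{th+8ε})`. -/
def StDSM : Prop := ∀ (p ε C C₀ : ℝ), 0 < p → p ≤ 1 - 1 / Real.exp 2 → 0 < ε → ε ≤ 1 / 24 → 1 ≤ C →
  1 ≤ C₀ → ∃ (J : ℕ) (δ : ℝ), 0 < δ ∧ ∃ n0 : ℕ, ∀ (n T : ℕ) (th : ℝ) (κ : ℕ → ℝ) (lam mu : ℝ)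
    (P : Finset (Finset (Fin n))), n0 ≤ n → Win p ε n T th → Par p ε C δ n T th κ lam mu →
  Good p C₀ δ ((n : ℝ) ^ (th + 5 * ε)) n T J κ P →
  ∑ Q ∈ (QQ ε n T th κ).filter (fun Q => (n : ℝ) ^ (th + 7 * ε) < ovl P Q),
    (1 - p) ^ inn Q * ((1 - (n : ℝ) ^ (th + 8 * ε - 1) * p) / (1 - p)) ^ ovl P Q ≤
    Real.exp (-(n : ℝ) ^ (th + 5 * ε))

open Classical in
/-- EXP (the exact profile).  Uses `StEXC`, `StSIZ`.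

PROOF.  `k u = ⌊κ u⌋` for `2 ≤ u ≤ T`, `k 1 = n - ∑_{u≥2} u k u`, the others `0`.  `κ 1 ≤ k 1 ≤ κ 1 + T²` and `κ 1 ≤ K C^T e^{-L(T-1)²/2} ≤ 1`; `K - T ≤ ∑ k ≤ K + T² + 1`.  For `P ∈ Ex n k` sums over classes are sums over `u` with weights `k u`: hinge:
`≤ D_j + T k 1 ≤ D_j + δK`; small: `u ≥ 2`: `≤ ∑_{i≥h} i² κ(T-i) ≤ C' K e^{-Lh²/4}` (Par.tail), `u = 1`: `T² k 1 ≤ 2T⁴ ≤ n^ε`; `C₁ = C' + 1`.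
First moment: by EXC `ln(|Ex| q^{inn}) ≥ ln n! - ∑ (k u ln u! + ln (k u)!) - L ∑ k u C(u,2) = ln n! + ∑ (k u ln om u - ln (k u)!)`, `ln om u = ln κ u - lam - mu u`, so it is
`ln n! - lam ∑k - mu n + ∑ (k u ln κ u - ln (k u)!)`.  `-lam ∑k ≥ -lam K - T λ³` (`0 ≤ -lam ≤ λ³`).  For `u ≥ 2`, `k = k u ≥ 1`: `k ln κ - ln k! ≥ k ln k - (k ln k - k + ln k + 1) ≥ κ u - 2 - λ`; `k u = 0`: `0 ≥ κ u - 1`.  `u = 1`: `ln κ 1 = lam + mu ≥ lam ≥ -λ³`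
(`mu > 0`: `lam + mu T = ln(κ T/om T) > 0`), `k 1 ≤ T² + 1`: `≥ -(T²+1) λ³ - T⁴`.  Sum `≥ ln n! - mu n - lam K + K - O(T⁴ λ³) ≥ n^{th+3ε}/2` (Par.ent). -/
def StEXP : Prop := ∀ (p ε C : ℝ), 0 < p → p ≤ 1 - 1 / Real.exp 2 → 0 < ε → ε ≤ 1 / 24 → 1 ≤ C →
  ∃ C₁ : ℝ, 1 ≤ C₁ ∧ ∀ (C₀ δ : ℝ) (J : ℕ), C₁ ≤ C₀ → 0 < δ → ∃ n0 : ℕ, ∀ (n T : ℕ) (th : ℝ)
  (κ : ℕ → ℝ) (lam mu : ℝ), n0 ≤ n → Win p ε n T th → Par p ε C δ n T th κ lam mu →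
  ∃ k : ℕ → ℕ, k 0 = 0 ∧ (∀ u, T < u → k u = 0) ∧ ∑ u ∈ range (T + 1), u * k u = n ∧
    (∀ P ∈ Ex n k, Good p C₀ δ ((n : ℝ) ^ ε) n T J κ P) ∧
    ((∑ u ∈ range (T + 1), k u : ℕ) : ℝ) ≤ KK T κ + (n : ℝ) ^ ε ∧
    Real.exp ((n : ℝ) ^ (th + 3 * ε) / 2) ≤
      ((Ex n k).card : ℝ) * (1 - p) ^ (∑ u ∈ range (T + 1), k u * u.choose 2)

open Classical in
/-- ESM (second moment).  Uses `StEXP`, `StEXC`, `StMNO`, `StMID`, `StNI`, `StCRU`, `StSIZ`, `StMKS`.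

PROOF.  `C₀ = C₁` of EXP, `ε₀` from NI, `J, δ` from MID, `k` from EXP, `𝓔 = Ex n k` (nonempty by the last claim of EXP), `kT = k T`, `I = ∑ k u C(u,2)`, `s = n^ε`.  `P ∈ 𝓔`, `η = kT/Mk ≤ n/n^{1+th-ε/8} ≤ n^{-th+ε}` (MKS), a common class of size `T > R` lies in `bigS`, so the number of them is
`≤ m = |bigS|`.  Let `f(Q) = b^{ovl} e^{2ηm}`.  `κ' u = k u` (`Wt`: `∑ k ≤ n`), `pw (gf κ') Q = ∏ (u! k u)^{k u} =: W₀` for `Q ∈ 𝓔`, and by EXC `n!/W₀ ≤ |𝓔| ∏ (k u)!/(k u)^{k u}`, `∏ (k u)! e^{k u}/(k u)^{k u} ≤ (e n)^{T+1}` (`k! ≤ e k (k/e)^k`).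
(0) `m ≤ n^{1-th+ε}`: MNO: `∑ f ≤ |𝓔| (en)^{T+1} exp(kT²/e^{hv} + n^{3ε})`.  (1) `n^{1-th+ε} ≤ m ≤ (1-ε₀)|P|`: MID with `m₀ = n^{1-th+ε}` and `e^{2ηm} ≤ e^{2ηn} ≤ exp(2n^{1-th+ε/2})`: `≤ |𝓔| (en)^{T+1} exp(2n^{1-th+ε/2} - n^{1-th+ε}) ≤ |𝓔|`.
(2) `m > (1-ε₀)|P|`, `N = NR ≥ n^{1/2+ε}` (`≥ s n^{ε/2}`): `∑ f = q^{-I} ∑ q^{inn Q} b^{ovl} e^{2ηm} ≤ q^{-I} n e^{2ηn}` (NI; `|Q| = |P|`, `Sml` from Good), and `|𝓔| q^I ≥ exp(n^{th+3ε}/2) ≥ n e^{2ηn}`.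
(3) `m > (1-ε₀)|P|`, `N < n^{1/2+ε}`: CRU: `∑ f ≤ q^{-I} (n+1)^{3N₁} e^{2ηn}`, `N₁ = ⌈n^{1/2+ε}⌉`: again `≤ |𝓔|` (`1/2 + ε < th + 3ε`, `1 - th + ε/2 < th + 3ε`).  Sum `≤ |𝓔| exp(kT²/e^{hv} + 2 n^{3ε})`. -/
def StESM : Prop := ∀ (p ε C : ℝ), 0 < p → p ≤ 1 - 1 / Real.exp 2 → 0 < ε → ε ≤ 1 / 24 → 1 ≤ C →
  ∃ δ : ℝ, 0 < δ ∧ ∃ n0 : ℕ, ∀ (n T : ℕ) (th : ℝ) (κ : ℕ → ℝ) (lam mu : ℝ), n0 ≤ n →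
  Win p ε n T th → Par p ε C δ n T th κ lam mu →
  ∃ (𝓔 : Finset (Finset (Finset (Fin n)))) (kT k I : ℕ), 𝓔.Nonempty ∧
    (∀ P ∈ 𝓔, P ∈ Pt (Fin n) ∧ (∀ A ∈ P, A.card ≤ T) ∧
      (P.filter (fun A => A.card = T)).card = kT ∧ P.card = k ∧ inn P = I) ∧
    (k : ℝ) ≤ KK T κ + (n : ℝ) ^ ε ∧
    ∀ P ∈ 𝓔, ∑ Q ∈ 𝓔, (1 / (1 - p)) ^ ovl P Q *
      Real.exp (2 * (kT / Mk p n T) * ((P ∩ Q).filter (fun A => A.card = T)).card) ≤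
      (𝓔.card : ℝ) * Real.exp ((kT : ℝ) ^ 2 / Real.exp (hv p n T) + 2 * (n : ℝ) ^ (3 * ε))

open Classical in
/-- ECL (existence of good colourings).  Uses `StESM`, `StPZW`, `StAZU`, `StMKS`.

PROOF.  PZW with `ρ = exp(kT²/e^{hv} + 2n^{3ε})` and `Mk ≤ e^{hv}` (MKS): `P(χ ≤ k) ≥ exp(-3n^ε - 2n^{3ε}) ≥ exp(-m)`, `m = 5n^{3ε}`.  AZU: `P(χ > k + 2√(2nm)) ≤ e^{-m} ≤ n^{-3}`, and `k + 2√(10) n^{1/2+3ε/2} ≤ K + n^ε + 7 n^{1/2+3ε/2} ≤ K + n^{th+3ε}`. -/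
def StECL : Prop := ∀ (p ε C : ℝ), 0 < p → p ≤ 1 - 1 / Real.exp 2 → 0 < ε → ε ≤ 1 / 24 → 1 ≤ C →
  ∃ δ : ℝ, 0 < δ ∧ ∃ n0 : ℕ, ∀ (n T : ℕ) (th : ℝ) (κ : ℕ → ℝ) (lam mu : ℝ), n0 ≤ n →
  Win p ε n T th → Par p ε C δ n T th κ lam mu →
  PP p (fun ω : Sym2 (Fin n) → Bool => KK T κ + (n : ℝ) ^ (th + 3 * ε) < ch (gr ω)) ≤
    (n : ℝ) ^ (-(3 : ℝ))

/-- UXT (the variance).  Uses `StPAR`, `StGFM`, `StDSM`, `StECL`, `StVBD`, `StIDN`, `StMAX`, `StPRQ`, `StSIZ`.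

PROOF.  `C` from PAR, `C₀ = C₁` from GFM, `J, δ_D` from DSM, `δ_E` from ECL, `δ = min δ_D δ_E`; `κ` from PAR for `δ` (`Par` and `Good` are monotone in `δ`: `Par p ε C δ → Par p ε C δ'` for `δ ≤ δ'`; use GFM and DSM with `δ_D`).  VBD with `t = n^{th+8ε-1} ≤ 1`,
`X₀ = n^{th+7ε}`, `𝒜 = {P ∈ QQ : Good p C₀ δ_D (n^{th+5ε}) n T J κ P}`, `bad ω` = (a) `T + 2 ≤ ind ω`, or (b) there is a proper `P ∈ Pt` with at least `n^{th+2ε}` classes of size `T+1`, or (c) `χ > K + n^{th+3ε}`, or (d) there is a proper `P ∈ QQ` which is not good.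
(If `P` is proper, `|P| = χ`, `P ∉ 𝒜` and not (a): class sizes are `≤ T+1`; not (b), not (c): `P ∈ QQ`; so (d).)  `E[ind 1_bad] ≤ E[ind 1_{(a)}] + (T+1)(P(b) + P(c) + P(d)) ≤ n^{th-1+ε} + (T+1)(2n^{-3} + e^{-n^{th+4ε}})` (IDN, MAX, ECL, union bound with PRQ and GFM).
The double sum is `≤ ∑_P (1-p)^{inn P} e^{-n^{th+5ε}} ≤ exp(n^{th+4ε} - n^{th+5ε})` (DSM, GFM).  So `vn ≤ n^{th+8ε}(T+2) + n^{th+7ε} + n² exp(..) + 2n^{th+ε} + 1 ≤ n^{th+9ε}`. -/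
def StUXT : Prop := ∀ (p ε : ℝ), 0 < p → p ≤ 1 - 1 / Real.exp 2 → 0 < ε → ε ≤ 1 / 24 →
  ∃ n0 : ℕ, ∀ (n T : ℕ) (th : ℝ), n0 ≤ n → Win p ε n T th → vn p n ≤ (n : ℝ) ^ (th + 9 * ε)

/-- UXF (the theorem).  Uses `StUXT`, `StMcd` of project CN.

PROOF.  `ε' = min(ε/24, 1/24)`, `th = Int.fract (a0 p n) ≥ 1/2`, `T = ⌊a0 p n⌋ - 1` (`a0 p n → ∞`).  If `th ≤ 1 - 12ε'`: UXT, `sn = √vn ≤ n^{th/2 + 4.5ε'}`.  Otherwise `vn ≤ 2n` (StMcd, `t = 0`), `sn ≤ √2 n^{1/2} ≤ √2 n^{th/2 + 6ε'} ≤ n^{th/2+ε}`. -/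
def StUXF : Prop := ∀ (p ε : ℝ), 0 < p → p ≤ 1 - 1 / Real.exp 2 → 0 < ε →
  ∃ n0 : ℕ, ∀ n : ℕ, n0 ≤ n → 1 / 2 ≤ Int.fract (a0 p n) →
    sn p n ≤ (n : ℝ) ^ (Int.fract (a0 p n) / 2 + ε)

open Classical in
/-- UXD (density).  Uses `StUXF`.

PROOF.  `x > 1/4`; WLOG `x ≤ 1/2`; `ε = (x - 1/4)/4`, `I = [1/2, 2x - 2ε]` (length `> 0`).  If `fract (α₀ n) ∈ I` then `fract/2 + ε ≤ x` and UXF applies.  `α₀(y)` is continuous and increasing for large `y`, `α₀(y) = (2/L) ln y - (2/L) ln ln y + c`, `α₀(Cy) - α₀(y) → (2/L) ln C`.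
With `C` such that `(2/L) ln C ≥ 2`: for large `N` there is an integer `a` with `[a + 1/2, a + 2x - 2ε] ⊆ α₀([N, CN])`, so the set of the `y ∈ [N, CN]` with `α₀(y)` in it is an interval `[y₁, y₂]` with `α₀(y₂) - α₀(y₁) = 2x - 2ε - 1/2 =: ω > 0`, so `y₂ ≥ y₁(1 + c')`
(`α₀' ≤ (2/L)/y`), it contains at least `c' N - 1 ≥ c N` integers. -/
def StUXD : Prop := ∀ (p x : ℝ), 0 < p → p ≤ 1 - 1 / Real.exp 2 → 1 / 4 < x →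
  ∃ c C : ℝ, 0 < c ∧ ∃ N0 : ℕ, ∀ N : ℕ, N0 ≤ N →
  c * N ≤ (((Icc N ⌊C * N⌋₊).filter (fun n : ℕ => sn p n ≤ (n : ℝ) ^ x)).card : ℝ)

end Pool.Agent.Helper69.UX
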