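import Pool.Agent.Helper69.UX.StA

/-!
# Project UX (MP_e12aa9_pr), module OPT: optimal colourings as partitions
-/

set_option autoImplicit false

namespace Pool.Agent.Helper69.UX

open Finset Pool.Agent.Helper82.CN Pool.Agent.Helper11.PV Pool.Agent.Helper69.VX

open Classical in
theorem mem_Pt_OPT {V : Type} [Fintype V] (P : Finset (Finset V)) :
    P ∈ Pt V ↔ (∀ A ∈ P, A.Nonempty) ∧ (∀ A ∈ P, ∀ B ∈ P, A ≠ B → Disjoint A B) ∧
      ∀ v : V, ∃ A ∈ P, v ∈ A := by
  unfold Pt
  simp

theorem part2_OPT (n : ℕ) (ω : Sym2 (Fin n) → Bool) (P : Finset (Finset (Fin n)))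
    (hP : P ∈ Pt (Fin n)) (h : prp ω P) : (gr ω).chromaticNumber.toNat ≤ P.card := by
  obtain ⟨h1, h2, h3⟩ := (mem_Pt_OPT P).1 hP
  choose f hf hf' using h3
  have hcol : (gr ω).Colorable P.card := by
    have : (gr ω).Colorable (Fintype.card {A // A ∈ P}) := by
      refine (SimpleGraph.Coloring.mk (fun v => (⟨f v, hf v⟩ : {A // A ∈ P})) ?_).colorable
      intro u v huv heq
      have e : f u = f v := congrArg Subtype.val heq
      have hne : u ≠ v := huv.ne
      have h4 := h (f u) (hf u) u (hf' u) v (e ▸ hf' v) hne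
      have h5 : ω s(u, v) = true := by
        have := huv
        simp only [gr] at this
        tauto
      rw [h4] at h5
      exact Bool.noConfusion h5
    simpa using this
  have h6 := hcol.chromaticNumber_le
  exact ENat.toNat_le_of_le_natCast h6

theorem hOPT : StOPT := by
  classical
  intro n ω
  refine ⟨?_, fun P hP h => part2_OPT n ω P hP h⟩
  have hcol : (gr ω).Colorable n := by
    have := (gr ω).colorable_of_fintype
    simpa using this
  obtain ⟨C⟩ := SimpleGraph.colorable_chromaticNumber hcol
  set k := (gr ω).chromaticNumber.toNat with hk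
  let P : Finset (Finset (Fin n)) :=
    ((univ : Finset (Fin k)).image (fun i => univ.filter (fun v => C v = i))).filter
      (fun A => A.Nonempty)
  have hP : P ∈ Pt (Fin n) := by
    rw [mem_Pt_OPT]
    refine ⟨fun A hA => (mem_filter.1 hA).2, ?_, ?_⟩
    · intro A hA B hB hAB
      obtain ⟨i, -, rfl⟩ := mem_image.1 (mem_filter.1 hA).1
      obtain ⟨j, -, rfl⟩ := mem_image.1 (mem_filter.1 hB).1
      rw [Finset.disjoint_left]
      intro v hv hv'
      rw [mem_filter] at hv hv'
      exact hAB (by rw [← hv.2, ← hv'.2])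
    · intro v
      refine ⟨univ.filter (fun w => C w = C v), ?_, by simp⟩
      rw [mem_filter]
      exact ⟨mem_image_of_mem _ (mem_univ _), ⟨v, by simp⟩⟩
  have hprp : prp ω P := by
    intro A hA u hu v hv huv
    obtain ⟨i, -, rfl⟩ := mem_image.1 (mem_filter.1 hA).1
    rw [mem_filter] at hu hv
    by_contra h
    have h' : ω s(u, v) = true := by
      cases hh : ω s(u, v)
      · exact absurd hh h
      · rfl
    have hadj : (gr ω).Adj u v := ⟨huv, h'⟩
    exact C.valid hadj (hu.2.trans hv.2.symm)
  refine ⟨P, hP, hprp, le_antisymm ?_ (part2_OPT n ω P hP hprp)⟩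
  calc P.card ≤ ((univ : Finset (Fin k)).image
        (fun i => univ.filter (fun v => C v = i))).card := card_filter_le _ _
    _ ≤ (univ : Finset (Fin k)).card := card_image_le
    _ = k := by simp

end Pool.Agent.Helper69.UX
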