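import Pool.Agent.Helper34.UX.M_HAR
import Pool.Agent.Helper22.UX.M_CHA
import Pool.Agent.Helper69.UX.M_OPT
import Pool.Agent.Helper16.UX.M_PRQ
import Pool.Agent.Helper15.UX.M_CHR
import Pool.Agent.Helper8.UX.M_VBD
import Pool.Agent.Helper76.UX.M_JAN
import Pool.Agent.Helper36.UX.M_HLB
import Pool.Agent.Helper95.UX.M_SET
import Pool.Agent.Helper42.UX.M_MKS
import Pool.Agent.Helper46.UX.M_EPY
import Pool.Agent.Helper29.UX.M_TRV
import Pool.Agent.Helper66.UX.M_DLT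
import Pool.Agent.Helper63.UX.M_WTL
import Pool.Agent.Helper87.UX.M_WTU
import Pool.Agent.Helper21.UX.M_PZW
import Pool.Agent.Helper58.UX.M_AZU
import Pool.Agent.Helper63.UX.M_IDN
import Pool.Agent.Helper65.UX.M_MAX
import Pool.Agent.Helper73.UX.M_CNM
import Pool.Agent.Helper36.UX.M_MA0
import Pool.Agent.Helper70.UX.M_MAP
import Pool.Agent.Helper24.UX.M_LAB
import Pool.Agent.Helper13.UX.M_TLT
import Pool.Agent.Helper18.UX.M_LBS
import Pool.Agent.Helper90.UX.M_OVL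
import Pool.Agent.Helper11.UX.M_CRU
import Pool.Agent.Helper26.UX.M_EXC
import Pool.Agent.Helper36.UX.M_MGK
import Pool.Agent.Helper3.UX.M_MGM
import Pool.Agent.Helper9.UX.M_MGB
import Pool.Agent.Helper22.UX.M_MGX
import Pool.Agent.Helper95.UX.M_SIZ
import Pool.Agent.Helper32.UX.M_PR1
import Pool.Agent.Helper53.UX.M_PR2
import Pool.Agent.Helper66.UX.M_PAR
import Pool.Agent.Helper58.UX.M_BUD
import Pool.Agent.Helper70.UX.M_FBD
import Pool.Agent.Helper10.UX.M_FAC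
import Pool.Agent.Helper3.UX.M_GAM
import Pool.Agent.Helper33.UX.M_OVN
import Pool.Agent.Helper42.UX.M_MD1
import Pool.Agent.Helper22.UX.M_MD2
import Pool.Agent.Helper36.UX.M_MID
import Pool.Agent.Helper38.UX.M_SML
import Pool.Agent.Helper37.UX.M_MNO
import Pool.Agent.Helper16.UX.M_NIT
import Pool.Agent.Helper61.UX.M_NIS
import Pool.Agent.Helper78.UX.M_NIQ
import Pool.Agent.Helper15.UX.M_NIP
import Pool.Agent.Helper94.UX.M_NIO
import Pool.Agent.Helper98.UX.M_NIR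
import Pool.Agent.Helper8.UX.M_NIA
import Pool.Agent.Helper73.UX.M_NIB
import Pool.Agent.Helper47.UX.M_NI
import Pool.Agent.Helper10.UX.M_TIL
import Pool.Agent.Helper86.UX.M_GFM
import Pool.Agent.Helper61.UX.M_DSM
import Pool.Agent.Helper2.UX.M_EXP
import Pool.Agent.Helper76.UX.M_ESM
import Pool.Agent.Helper94.UX.M_ECL
import Pool.Agent.Helper1.UX.M_UXT
import Pool.Agent.Helper66.UX.M_UXF
import Pool.Agent.Helper58.UX.M_UXD
import Pool.Agent.Helper82.CN.All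
import Pool.Agent.Helper69.VX.All

/-!
# Project UX (MP_e12aa9_pr): assembly of the modules
-/

set_option autoImplicit false

namespace Pool.Agent.Helper69.UX

open Pool.Agent.Helper82.CN

theorem aHAR : StHAR := Pool.Agent.Helper34.UX.hHAR
theorem aCHA : StCHA := Pool.Agent.Helper22.UX.hCHA
theorem aOPT : StOPT := Pool.Agent.Helper69.UX.hOPT
theorem aPRQ : StPRQ := Pool.Agent.Helper16.UX.hPRQ
theorem aCHR : StCHR := Pool.Agent.Helper15.UX.hCHR aCHA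
theorem aVBD : StVBD := Pool.Agent.Helper8.UX.hVBD aCHR aOPT aPRQ
theorem aJAN : StJAN := Pool.Agent.Helper76.UX.hJAN aHAR
theorem aHLB : StHLB := Pool.Agent.Helper36.UX.hHLB aHAR
theorem aSET : StSET := Pool.Agent.Helper95.UX.hSET
theorem aMKS : StMKS := Pool.Agent.Helper42.UX.hMKS Pool.Agent.Helper14.CN.tMKB
theorem aEPY : StEPY := Pool.Agent.Helper46.UX.hEPY aSET aMKS
theorem aTRV : StTRV := Pool.Agent.Helper29.UX.hTRV
theorem aDLT : StDLT := Pool.Agent.Helper66.UX.hDLT aMKS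
theorem aWTL : StWTL := Pool.Agent.Helper63.UX.hWTL aHLB aEPY aMKS
theorem aWTU : StWTU := Pool.Agent.Helper87.UX.hWTU aJAN aTRV aDLT aMKS aPRQ
theorem aPZW : StPZW := Pool.Agent.Helper21.UX.hPZW aWTL aWTU aOPT
theorem aAZU : StAZU := Pool.Agent.Helper58.UX.hAZU Pool.Agent.Helper40.CN.tMCG
theorem aIDN : StIDN := Pool.Agent.Helper63.UX.hIDN Pool.Agent.Helper14.CN.tMKB
theorem aMAX : StMAX := Pool.Agent.Helper65.UX.hMAX Pool.Agent.Helper14.CN.tMKB
theorem aCNM : StCNM := Pool.Agent.Helper73.UX.hCNM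
theorem aMA0 : StMA0 := Pool.Agent.Helper36.UX.hMA0 aCNM
theorem aMAP : StMAP := Pool.Agent.Helper70.UX.hMAP aCNM
theorem aLAB : StLAB := Pool.Agent.Helper24.UX.hLAB
theorem aTLT : StTLT := Pool.Agent.Helper13.UX.hTLT aLAB aMA0
theorem aLBS : StLBS := Pool.Agent.Helper18.UX.hLBS
theorem aOVL : StOVL := Pool.Agent.Helper90.UX.hOVL aMAP aLBS
theorem aCRU : StCRU := Pool.Agent.Helper11.UX.hCRU
theorem aEXC : StEXC := Pool.Agent.Helper26.UX.hEXC
theorem aMGK : StMGK := Pool.Agent.Helper36.UX.hMGK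
theorem aMGM : StMGM := Pool.Agent.Helper3.UX.hMGM
theorem aMGB : StMGB := Pool.Agent.Helper9.UX.hMGB aMGK aMGM
theorem aMGX : StMGX := Pool.Agent.Helper22.UX.hMGX aMGB aMGM
theorem aSIZ : StSIZ := Pool.Agent.Helper95.UX.hSIZ Pool.Agent.Helper14.CN.tMKB
theorem aPR1 : StPR1 := Pool.Agent.Helper32.UX.hPR1
theorem aPR2 : StPR2 := Pool.Agent.Helper53.UX.hPR2
theorem aPAR : StPAR := Pool.Agent.Helper66.UX.hPAR aPR1 aPR2 aSIZ
theorem aBUD : StBUD := Pool.Agent.Helper58.UX.hBUD aMGX aSIZ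
theorem aFBD : StFBD := Pool.Agent.Helper70.UX.hFBD aSIZ
theorem aFAC : StFAC := Pool.Agent.Helper10.UX.hFAC
theorem aGAM : StGAM := Pool.Agent.Helper3.UX.hGAM aSIZ
theorem aOVN : StOVN := Pool.Agent.Helper33.UX.hOVN aOVL aGAM aFAC aSIZ
theorem aMD1 : StMD1 := Pool.Agent.Helper42.UX.hMD1 aFBD aFAC aSIZ
theorem aMD2 : StMD2 := Pool.Agent.Helper22.UX.hMD2 aFBD aFAC aSIZ aBUD
theorem aMID : StMID := Pool.Agent.Helper36.UX.hMID aOVN aMD1 aMD2 aSIZ
theorem aSML : StSML := Pool.Agent.Helper38.UX.hSML aOVN aFBD aFAC aSIZ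
theorem aMNO : StMNO := Pool.Agent.Helper37.UX.hMNO aOVN aFBD aFAC aSIZ
theorem aNIT : StNIT := Pool.Agent.Helper16.UX.hNIT aOVL aGAM aMKS
theorem aNIS : StNIS := Pool.Agent.Helper61.UX.hNIS aSIZ
theorem aNIQ : StNIQ := Pool.Agent.Helper78.UX.hNIQ
theorem aNIP : StNIP := Pool.Agent.Helper15.UX.hNIP aSIZ aNIS aNIQ
theorem aNIO : StNIO := Pool.Agent.Helper94.UX.hNIO aSIZ
theorem aNIR : StNIR := Pool.Agent.Helper98.UX.hNIR aNIO aSIZ
theorem aNIA : StNIA := Pool.Agent.Helper8.UX.hNIA aNIP aNIR aSIZ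
theorem aNIB : StNIB := Pool.Agent.Helper73.UX.hNIB aNIP aNIR aSIZ
theorem aNI : StNI := Pool.Agent.Helper47.UX.hNI aNIT aNIA aNIB
theorem aTIL : StTIL := Pool.Agent.Helper10.UX.hTIL aTLT aSIZ
theorem aGFM : StGFM := Pool.Agent.Helper86.UX.hGFM aTIL aSIZ
theorem aDSM : StDSM := Pool.Agent.Helper61.UX.hDSM aTIL aSML aMID aNI aCRU aSIZ
theorem aEXP : StEXP := Pool.Agent.Helper2.UX.hEXP aEXC aSIZ
theorem aESM : StESM := Pool.Agent.Helper76.UX.hESM aEXP aEXC aMNO aMID aNI aCRU aSIZ aMKS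
theorem aECL : StECL := Pool.Agent.Helper94.UX.hECL aESM aPZW aAZU aMKS
theorem aUXT : StUXT := Pool.Agent.Helper1.UX.hUXT aPAR aGFM aDSM aECL aVBD aIDN aMAX aPRQ aSIZ
theorem aUXF : StUXF := Pool.Agent.Helper66.UX.hUXF Pool.Agent.Helper82.CN.aMCD aUXT
theorem aUXD : StUXD := Pool.Agent.Helper58.UX.hUXD aUXF

end Pool.Agent.Helper69.UX
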