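import Pool.Agent.Helper69.VX.St
import Pool.Agent.Helper82.CN.St

/-!
# Project UX (MP_e12aa9_pr): definitions

THEOREM.  `p ∈ (0, 1 - e⁻²]`, `ε > 0`.  For all large `n` with `θ(n) = frac α₀(n) ≥ 1/2` the standard deviation of the chromatic number of
`G(n,p)` is at most `n^{θ(n)/2 + ε}`; in particular it is at most `n^{1/4+ε}` for infinitely many `n`.

Notation: `q = 1-p`, `b = 1/q`, `L = bb p = ln b ∈ (0,2]`; `T = ⌊α₀(n)⌋ - 1`, `th = θ(n)`, `hv p n u = ln (n^u/(u! b^(u choose 2)))`.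
-/

set_option autoImplicit false

namespace Pool.Agent.Helper69.UX

open Finset Pool.Agent.Helper82.CN Pool.Agent.Helper11.PV Pool.Agent.Helper69.VX

section basic

variable {V : Type}

open Classical in
/-- the partitions of a finite type `V` into nonempty sets -/
noncomputable def Pt (V : Type) [Fintype V] : Finset (Finset (Finset V)) :=
  univ.filter (fun P => (∀ A ∈ P, A.Nonempty) ∧ (∀ A ∈ P, ∀ B ∈ P, A ≠ B → Disjoint A B) ∧
    ∀ v : V, ∃ A ∈ P, v ∈ A)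

/-- number of pairs inside the classes -/
def inn (P : Finset (Finset V)) : ℕ := ∑ A ∈ P, A.card.choose 2

/-- number of pairs inside a class of `P` and inside a class of `Q` -/
def ovl [DecidableEq V] (P Q : Finset (Finset V)) : ℕ := ∑ A ∈ P, ∑ B ∈ Q, (A ∩ B).card.choose 2

/-- all classes of `P` are independent in the graph of `ω` -/
def prp (ω : Sym2 V → Bool) (P : Finset (Finset V)) : Prop :=
  ∀ A ∈ P, ∀ u ∈ A, ∀ v ∈ A, u ≠ v → ω s(u, v) = false

/-- size of the biggest block of `A` -/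
def mxb [DecidableEq V] (Q : Finset (Finset V)) (A : Finset V) : ℕ := Q.sup (fun B => (A ∩ B).card)

/-- the classes of `P` with a big block (bigger than `R`) -/
def bigS [DecidableEq V] (R : ℕ) (P Q : Finset (Finset V)) : Finset (Finset V) :=
  P.filter (fun A => R < mxb Q A)

/-- number of vertices outside the big blocks -/
def NR [Fintype V] [DecidableEq V] (R : ℕ) (P Q : Finset (Finset V)) : ℕ :=
  Fintype.card V - ∑ A ∈ bigS R P Q, mxb Q A

/-- number of pairs inside the big blocks -/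
def ovB [DecidableEq V] (R : ℕ) (P Q : Finset (Finset V)) : ℕ :=
  ∑ A ∈ bigS R P Q, (mxb Q A).choose 2

/-- product of weights of the classes -/
def pw (g : ℕ → ℝ) (P : Finset (Finset V)) : ℝ := ∏ A ∈ P, g A.card

end basic

/-- `α₀(n)` -/
noncomputable abbrev a0 (p x : ℝ) : ℝ := Pool.Agent.Helper82.CN.al p x

/-- the independence number -/
noncomputable abbrev ind {V : Type} [Fintype V] (ω : Sym2 V → Bool) : ℕ :=
  Pool.Agent.Helper69.VX.al ω

/-- `q^(u choose 2) / u!` -/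
noncomputable def om (p : ℝ) (u : ℕ) : ℝ := (1 - p) ^ (u.choose 2) / (u.factorial : ℝ)

/-- number of classes for the profile `κ` -/
def KK (T : ℕ) (κ : ℕ → ℝ) : ℝ := ∑ u ∈ range (T + 1), κ u

/-- threshold for big blocks -/
noncomputable def RR (ε : ℝ) (T : ℕ) : ℕ := ⌈(1 / 2 + ε / 2) * (T : ℝ)⌉₊

/-- the window: `α₀(n) = T + 1 + th`, `1/2 ≤ th ≤ 1 - 12 ε` -/
def Win (p ε : ℝ) (n T : ℕ) (th : ℝ) : Prop :=
  a0 p n = (T : ℝ) + 1 + th ∧ 1 / 2 ≤ th ∧ th ≤ 1 - 12 * ε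

/-- `φ(x) = (1-x) ln (1/(1-x))` -/
noncomputable def ph (x : ℝ) : ℝ := (1 - x) * Real.log (1 / (1 - x))

/-- the parameters (a profile `κ` and its Lagrange multipliers): (1) `κ u = e^(lam + mu u) om u`, `1 ≤ u ≤ T`; (2) `∑ u κ u = n`;
(3) the logarithm `ln n! - mu n - lam K + K` of the first moment is `n^(th + 3ε)`; (4) `1 ≤ -lam ≤ (ln n)^3`; (5) the mean of `T - u` is
`2/L - th` up to `δ`; (6) Gaussian tail; (7) `κ T ≥ K/C`; (8) the size `T + 1`. -/
structure Par (p ε C δ : ℝ) (n T : ℕ) (th : ℝ) (κ : ℕ → ℝ) (lam mu : ℝ) : Prop where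
  eq : ∀ u, 1 ≤ u → u ≤ T → κ u = Real.exp (lam + mu * u) * om p u
  zer : ∀ u, u = 0 ∨ T < u → κ u = 0
  sum : ∑ u ∈ range (T + 1), (u : ℝ) * κ u = n
  ent : Real.log (n.factorial : ℝ) - mu * n - lam * KK T κ + KK T κ = (n : ℝ) ^ (th + 3 * ε)
  lam1 : lam ≤ -1
  lam2 : -lam ≤ Real.log n ^ 3
  mean : |∑ u ∈ range (T + 1), ((T : ℝ) - u) * κ u - (2 / bb p - th) * KK T κ| ≤ δ * KK T κ
  tail : ∀ u, u ≤ T → κ u ≤ KK T κ * C ^ (T - u + 1) * Real.exp (-(bb p * ((T - u : ℕ) : ℝ) ^ 2 / 2))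
  top : KK T κ ≤ C * κ T
  nxt : Real.exp (lam + mu * ((T : ℝ) + 1)) * om p (T + 1) ≤ C * n

open Classical in
/-- good partitions (slack `s`): class sizes at most `T+1`, number of classes `K ± s`, the hinge sums are at most those of `κ`,
and there are few small classes. -/
structure Good (p C₀ δ s : ℝ) (n T J : ℕ) (κ : ℕ → ℝ) (P : Finset (Finset (Fin n))) : Prop where
  part : P ∈ Pt (Fin n)
  size : ∀ A ∈ P, A.card ≤ T + 1
  num1 : KK T κ - s ≤ P.card
  num2 : (P.card : ℝ) ≤ KK T κ + s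
  hinge : ∀ j, j ≤ J → ∑ A ∈ P, ((T - j - A.card : ℕ) : ℝ) ≤
    ∑ u ∈ range (T + 1), κ u * ((T - j - u : ℕ) : ℝ) + δ * KK T κ
  small : ∀ h, h ≤ T → ∑ A ∈ P.filter (fun A => h ≤ T - A.card), ((T - A.card : ℕ) : ℝ) ^ 2 ≤
    C₀ * (s + KK T κ * Real.exp (-(bb p * (h : ℝ) ^ 2 / 4)))

end Pool.Agent.Helper69.UX
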