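import Pool.Agent.Helper69.UX.All
import Pool.Agent.Helper10.UX.M_SPC

/-!
# Project UX (MP_e12aa9_pr): assembly, part F
-/

set_option autoImplicit false

namespace Pool.Agent.Helper69.UX

theorem aSPC : StSPC := Pool.Agent.Helper10.UX.hSPC Pool.Agent.Helper82.CN.aWTH aUXF

end Pool.Agent.Helper69.UX
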