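import Pool.Agent.Helper69.UX.Defs

/-!
# Project UX (MP_e12aa9_pr), part A: probability.  Statements with proofs

Libraries: Pool/Agent/Helper82/CN/Lib.lean (`EE_*`), Pool/Agent/Helper69/VX/Defs.lean (`mix`, `AV`, `NN`, `EE_mix`, `pyth`, `NN_mono`, `DD_AV`,
`dep_DD`, ...), proved statements of VX: Pool/Agent/Helper69/VX/All.lean (`aBIT`, ...), of PV: Pool/Agent/Helper11/PV/All.lean (`aPHB`, ...),
of CN: Pool/Agent/Helper82/CN/All.lean.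
-/

set_option autoImplicit false

namespace Pool.Agent.Helper69.UX

open Finset Filter Pool.Agent.Helper82.CN Pool.Agent.Helper11.PV Pool.Agent.Helper69.VX

open Classical in
/-- CHA (chaos inequality, fixed set `K` of bits which are kept).  Uses `aBIT : StBIT` (Pool/Agent/Helper69/VX/All.lean).

PROOF.  `VV p F = E F² - (E F)² = NN univ F - NN ∅ F` (`AV ∅ F` is the constant `E F`, `AV univ F = F`).  (a) `NN univ F - NN K F`: add the bits `i ∉ K` one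
after the other (induction over the finite set of added bits): each step is `p(1-p) NN K' (DD F i) ≤ p(1-p) E (DD F i)²` (`aBIT`, `NN_le`).
(b) `NN K F - NN ∅ F`: add the bits of `K` one after the other: each step is `p(1-p) NN K' (DD F i)` with `K' ⊆ K`, `≤ p(1-p) NN K (DD F i)` (`NN_mono`). -/
def StCHA : Prop := ∀ (p : ℝ) (ι : Type) [Fintype ι] [DecidableEq ι] (F : (ι → Bool) → ℝ) (K : Set ι),
  0 ≤ p → p ≤ 1 →
  VV p F ≤ p * (1 - p) * (∑ i ∈ univ.filter (fun i => i ∉ K), EE p (fun ω => DD F i ω ^ 2) +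
    ∑ i ∈ univ.filter (fun i => i ∈ K), NN p K (DD F i))

/-- CHR (chaos inequality for the chromatic number).  Uses `StCHA`.

PROOF.  `F ω = ch (gr ω)`, `D e = DD F e`.  (1) `D e ω ∈ {0, 1}` and `D e = 0` for diagonal `e` (adding an edge increases `χ` by `0` or `1`).
(2) If `ω e = false` and `D e ω ≠ 0` then `e = s(u,v)` with `u ≠ v` in the same class of `Pc ω`: otherwise `Pc ω` is a proper colouring of
`gr (update ω e true)`, so its `χ` is at most `χ(gr ω)`, and `gr ω = gr (update ω e false)`.  (3) `D e` does not use the bit `e` (`dep_DD`), so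
`(1-p) E (D e)² = E[1{ω e = false} D e]` and for `e ∈ K`: `(1-p) NN K (D e) = (1-p) E_ω E_η[D e (ω) D e (mix K ω η)]
= E_ω E_η [1{ω e = false} D e (ω) D e (mix K ω η)]`, where `mix K ω η e = ω e` (`NN K G = E_ω E_η [G ω G (mix K ω η)]`: as in the proof of `pyth`).
(4) So for fixed `K` CHA gives `vn ≤ p ∑_{e ∉ K} E[1{ω e = false} D e] + p E E [#{e : e is an in-class pair of Pc ω and of Pc (mix K ω η)}]`, and the number in
the last bracket is at most `ovl` (a pair `e = s(u,v)` lies in `A ∩ B` for some `A ∈ Pc ω`, `B ∈ Pc(mix)`; `#{e in-class in A ∩ B} = |A ∩ B| choose 2`).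
(5) Take the expectation over `K = {e | κ e = true}`, `κ` with parameter `1-t` (so `P(e ∉ K) = t`): the first sum becomes
`t p E ∑_e 1{ω e = false} D e ≤ t E inn (Pc ω) ≤ t n E ind ω` (classes are independent sets, `∑ |A|(|A|-1)/2 ≤ n ind`).  (`p ≤ 1`.) -/
def StCHR : Prop := ∀ (p t : ℝ) (n : ℕ) (Pc : (Sym2 (Fin n) → Bool) → Finset (Finset (Fin n))),
  0 < p → p < 1 → 0 ≤ t → t ≤ 1 →
  (∀ ω, Pc ω ∈ Pt (Fin n) ∧ prp ω (Pc ω) ∧ (Pc ω).card = (gr ω).chromaticNumber.toNat) →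
  vn p n ≤ t * n * EE p (fun ω : Sym2 (Fin n) → Bool => (ind ω : ℝ)) +
    EE (1 - t) (fun κ : Sym2 (Fin n) → Bool => EE p (fun ω => EE p (fun η =>
      (ovl (Pc ω) (Pc (mix {e | κ e = true} ω η)) : ℝ))))

/-- OPT (optimal colourings as partitions).

PROOF.  The colour classes of an optimal colouring (`SimpleGraph.Colorable`, `chromaticNumber` of a finite graph is finite; all colours of an optimal colouring
are used), `χ` = number of nonempty classes.  Conversely a proper partition `P` gives a colouring with `|P|` colours. -/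
def StOPT : Prop := ∀ (n : ℕ) (ω : Sym2 (Fin n) → Bool),
  (∃ P ∈ Pt (Fin n), prp ω P ∧ P.card = (gr ω).chromaticNumber.toNat) ∧
  ∀ P ∈ Pt (Fin n), prp ω P → (gr ω).chromaticNumber.toNat ≤ P.card

open Classical in
/-- PRQ (probabilities).

PROOF.  The conditions are independent for the different non-diagonal pairs `e`.  `e` in a class of `P` only (or of `Q` only): probability `1-p`; in a class of
both: `P(ω e = false, mix e = false) = (1-t)(1-p) + t(1-p)² = (1-p)(1-tp) = (1-p)² (1-tp)/(1-p)`.  The number of pairs in a class of `P` is `inn P`, of both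
is `ovl P Q`.  In Lean: the expectation over `(κ, ω, η)` of a product `∏_e f_e(κ e, ω e, η e)` is the product of the expectations
(`Finset.prod_univ_sum`, `Fintype.piFinset_univ`, three times; or induction with `EE_indep`). -/
def StPRQ : Prop := ∀ (p t : ℝ) (n : ℕ) (P Q : Finset (Finset (Fin n))), p < 1 →
  P ∈ Pt (Fin n) → Q ∈ Pt (Fin n) →
  EE p (fun ω : Sym2 (Fin n) → Bool => if prp ω P then (1 : ℝ) else 0) = (1 - p) ^ inn P ∧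
  EE p (fun ω : Sym2 (Fin n) → Bool => if prp ω P ∧ prp ω Q then (1 : ℝ) else 0) =
    (1 - p) ^ (inn P + inn Q) * (1 / (1 - p)) ^ ovl P Q ∧
  EE (1 - t) (fun κ : Sym2 (Fin n) → Bool => EE p (fun ω => EE p (fun η =>
    if prp ω P ∧ prp (mix {e | κ e = true} ω η) Q then (1 : ℝ) else 0))) =
    (1 - p) ^ (inn P + inn Q) * ((1 - t * p) / (1 - p)) ^ ovl P Q

open Classical in
/-- VBD (variance bound).  Uses `StCHR`, `StOPT`, `StPRQ`.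

PROOF.  `Pc` = an optimal colouring (OPT, choice).  CHR.  `ω' = mix K ω η` has the same law as `ω` (`EE_mix`).  Bound `ovl (Pc ω) (Pc ω')`: it is at most `X₀`, or it is
`> X₀` and then: either `Pc ω ∈ 𝒜` and `Pc ω' ∈ 𝒜` and `ovl ≤ n²` (both are proper, so
`ovl ≤ n² ∑_{P, Q ∈ 𝒜, X₀ < ovl} 1{P proper in ω, Q proper in ω'}`, PRQ), or `Pc ω ∉ 𝒜` (then `ovl ≤ inn (Pc ω) ≤ n ind ω`), or `Pc ω' ∉ 𝒜`
(`ovl ≤ inn (Pc ω') ≤ n ind ω'`).  If `Pc ω ∉ 𝒜` then `bad ω` by assumption (applied to `P = Pc ω`). -/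
def StVBD : Prop := ∀ (p t X₀ : ℝ) (n : ℕ) (𝒜 : Finset (Finset (Finset (Fin n))))
  (bad : (Sym2 (Fin n) → Bool) → Prop), 0 < p → p < 1 → 0 ≤ t → t ≤ 1 → 0 ≤ X₀ →
  (∀ P ∈ 𝒜, P ∈ Pt (Fin n)) →
  (∀ ω : Sym2 (Fin n) → Bool, ∀ P ∈ Pt (Fin n), prp ω P →
    P.card = (gr ω).chromaticNumber.toNat → P ∉ 𝒜 → bad ω) →
  vn p n ≤ t * n * EE p (fun ω : Sym2 (Fin n) → Bool => (ind ω : ℝ)) + X₀ +
    (n : ℝ) ^ 2 * ∑ P ∈ 𝒜, ∑ Q ∈ 𝒜.filter (fun Q => X₀ < (ovl P Q : ℝ)),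
      (1 - p) ^ (inn P + inn Q) * ((1 - t * p) / (1 - p)) ^ ovl P Q +
    2 * n * EE p (fun ω : Sym2 (Fin n) → Bool => if bad ω then (ind ω : ℝ) else 0)

/-! ### second moment with weights -/

/-- HAR (Harris' inequality).

PROOF.  Mathlib: `fkg` / `four_functions_theorem`, or: reduce to `Fin N` (`EE_equiv`), induction on `N` (`EE_succ` of PV.Defs): with `F₀, F₁` the two restrictions,
`E F G = (1-p) E F₀ G₀ + p E F₁ G₁ ≥ (1-p) E F₀ E G₀ + p E F₁ E G₁ = E F E G + p(1-p)(E F₁ - E F₀)(E G₁ - E G₀)` and both differences have the same sign. -/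
def StHAR : Prop := ∀ (p : ℝ) (ι : Type) [Fintype ι] [DecidableEq ι] (F G : (ι → Bool) → ℝ),
  0 ≤ p → p ≤ 1 → ((Monotone F ∧ Monotone G) ∨ (Antitone F ∧ Antitone G)) →
  EE p F * EE p G ≤ EE p (fun ω => F ω * G ω)

open Classical in
/-- JAN (Janson's inequality for the Laplace transform).  Uses `StHAR`.

PROOF.  `I_S = 1{∀ i ∈ B S, ω i = false}`, `Y = ∑ I_S`, `Ψ(s) = E e^{-sY}`, `-Ψ'(s) = ∑_S E[I_S e^{-sY}]`.  Fix `S`; `Y = Y₁ + Y₂`, `Y₁` = sum over the `S'` with `B S ∩ B S' ≠ ∅`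
(including `S`), `Y₂` the rest, which does not use the bits of `B S`.  On `I_S = 1` put the bits of `B S` to `false`: with `ω⁰` = `ω` with the bits of `B S` set to `false`,
`E[I_S e^{-sY}] = P(I_S) E[e^{-sY₁(ω⁰)} e^{-sY₂(ω)}]` (`EE_indep`), both factors are monotone in `ω`, so HAR: `≥ P(I_S) E[e^{-sY₁(ω⁰)}] E[e^{-sY₂}]`, where
`E e^{-sY₂} ≥ Ψ(s)` and `E e^{-sY₁(ω⁰)} ≥ 1 - s E Y₁(ω⁰)`, `P(I_S) E Y₁(ω⁰) = ∑_{S' : B S ∩ B S' ≠ ∅} (1-p)^{|B S ∪ B S'|}`.  If `1 - s E Y₁(ω⁰) < 0` the lower bound still holds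
as the left side is `≥ 0 ≥` the negative number (times `Ψ(s) ≥ 0`).  So `-Ψ'(s) ≥ Ψ(s)(μ - sΔ)`, `(ln Ψ + sμ - s²Δ/2)' ≤ 0`, and at `s = 0` it is `0`. -/
def StJAN : Prop := ∀ (p s : ℝ) (ι σ : Type) [Fintype ι] [DecidableEq ι] [DecidableEq σ]
  (𝒮 : Finset σ) (B : σ → Finset ι), 0 ≤ p → p ≤ 1 → 0 ≤ s → (∀ S ∈ 𝒮, (B S).Nonempty) →
  EE p (fun ω => Real.exp (-s * ∑ S ∈ 𝒮, if (∀ i ∈ B S, ω i = false) then (1 : ℝ) else 0)) ≤
    Real.exp (-s * ∑ S ∈ 𝒮, (1 - p) ^ (B S).card +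
      s ^ 2 / 2 * ∑ S ∈ 𝒮, ∑ S' ∈ 𝒮.filter (fun S' => ¬ Disjoint (B S) (B S')),
        (1 - p) ^ (B S ∪ B S').card)

open Classical in
/-- HLB (lower bound for the Laplace transform, bits in `Z` planted).  Uses `StHAR`.

PROOF.  On the event that the bits of `Z` vanish the factor of `S` is a function of the bits in `B S \ Z`; these events do not use the bits of `Z`, so `EE_indep` gives the factor
`(1-p)^{|Z|}`; HAR for the product of the monotone functions `e^{-s 1{B S \ Z vanishes}}` (induction on `𝒮`; all are nonnegative), each with mean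
`1 - (1-e^{-s})(1-p)^{|B S \ Z|}`. -/
def StHLB : Prop := ∀ (p s : ℝ) (ι σ : Type) [Fintype ι] [DecidableEq ι] [DecidableEq σ]
  (𝒮 : Finset σ) (B : σ → Finset ι) (Z : Finset ι), 0 ≤ p → p ≤ 1 → 0 ≤ s →
  (1 - p) ^ Z.card * ∏ S ∈ 𝒮, (1 - (1 - Real.exp (-s)) * (1 - p) ^ (B S \ Z).card) ≤
  EE p (fun ω => (if (∀ i ∈ Z, ω i = false) then (1 : ℝ) else 0) *
    Real.exp (-s * ∑ S ∈ 𝒮, if (∀ i ∈ B S, ω i = false) then (1 : ℝ) else 0))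

open Classical in
/-- SET (sets with small blocks).  `P` a family of disjoint cells `A ⊆ U`.

PROOF.  `ws^{|S∩A| choose 2} ≤ ∑_{B ⊆ S ∩ A, |B| ≠ 1} ws^{|B| choose 2}`, and if `|S ∩ A| ≤ R` only `|B| ≤ R` occur.  So the left side is at most the sum over the families `(B_A)` of
`∏ ws^{|B_A| choose 2}` times the number of `S ⊆ U`, `|S| = d`, containing all `B_A`, which is `C(N-s, d-s) ≤ C(N,d) (d/N)^s`, `s = ∑|B_A|`; the sum over the families is a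
product over `A` (`Finset.prod_univ_sum`/`Finset.prod_sum`). -/
def StSET : Prop := ∀ (n d R : ℕ) (ws : ℝ) (U : Finset (Fin n)) (P : Finset (Finset (Fin n))),
  1 ≤ ws → d ≤ U.card → 1 ≤ U.card → (∀ A ∈ P, A ⊆ U) → (∀ A ∈ P, ∀ B ∈ P, A ≠ B → Disjoint A B) →
  ∑ S ∈ (U.powersetCard d).filter (fun S => ∀ A ∈ P, (S ∩ A).card ≤ R),
      ws ^ (∑ A ∈ P, (S ∩ A).card.choose 2) ≤
    (U.card.choose d : ℝ) * ∏ A ∈ P, (1 + ∑ r ∈ Icc 2 R, (A.card.choose r : ℝ) *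
      ws ^ (r.choose 2) * ((d : ℝ) / U.card) ^ r)

open Classical in
/-- EPY (number of independent `T`-sets in the planted model).  Uses `StSET`.  `b = 1/(1-p)`.

PROOF.  `q^{-C(T,2)}` times the left side is `∑_S b^{X(S)}`, `X(S) = ∑_A C(|S∩A|,2)`.  `R = RR ε T > T/2`, so at most one block of `S` is bigger than `R`.
(a) All blocks `≤ R`: SET with `U = univ`, `d = T`: `≤ C(n,T) exp(∑_A ∑_{r=2}^R C(|A|,r) b^{C(r,2)} (T/n)^r)`, `C(|A|,r) ≤ T^r`, at most `n` classes: `r = 2`: `≤ n T⁴ b/n²`; `r ≥ 3`: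
`n (T² b^{(r-1)/2}/n)^r`, and `b^{(R-1)/2} ≤ n^{1/2+ε/2+o(1)}` so the sum over `3 ≤ r ≤ R` is at most `n^{-1}·(..)`: (the exponent `r ln(T²/n) + r(r-1)L/2` is convex in `r`, so the
maximum is at `r = 3` or `r = R`: `n T⁶ b³/n³`, `n^{1 - (1/2 - ε)R}`).  Total `≤ C(n,T)(1 + n^{-1+ε})`.
(b) One block `r > R` in the class `A`: choose `A`, the block (`C(|A|,r)`), and the other `d = T - r` vertices `S' ⊆ univ \ A` with blocks `≤ R`: SET: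
`≤ C(n,d)·2`.  For `d = 0`: `S = A`: contributes exactly `#{A ∈ P : |A| = T} b^{C(T,2)}`, i.e. `kT` after multiplying with `q^{C(T,2)}`.  For `d ≥ 1`: `|A| ≤ T`, at most `n` classes,
`C(T,d) C(n,d) 2 q^{rd + C(d,2)} n ≤ 2 n (T n q^{r})^d`; `q^{T} ≤ n^{-2+ε/8}` and `q^R ≤ n^{-1-ε/2}` for large `n` (from `hv`: `b^{T-1} ≥ n² /(C T²)`), so the terms with `d ≤ 4/ε` are
`≤ 2n (n^{-1+ε/4})^d ≤ n^{ε/2}`, and those with `d > 4/ε` (`r > R`) are `≤ 2n (T n^{-ε/2})^d ≤ 1/n`; at most `T` values of `d`. -/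
def StEPY : Prop := ∀ (p ε : ℝ), 0 < p → p ≤ 1 - 1 / Real.exp 2 → 0 < ε → ε ≤ 1 / 24 → ∃ n0 : ℕ,
  ∀ (n T : ℕ) (th : ℝ) (P : Finset (Finset (Fin n))), n0 ≤ n → Win p ε n T th → P ∈ Pt (Fin n) →
  (∀ A ∈ P, A.card ≤ T) →
  ∑ S ∈ (univ : Finset (Fin n)).powersetCard T,
    (1 - p) ^ (T.choose 2 - ∑ A ∈ P, (S ∩ A).card.choose 2) ≤
    Mk p n T * (1 + (n : ℝ) ^ (-1 + ε)) + (P.filter (fun A => A.card = T)).card + (n : ℝ) ^ ε

open Classical in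
/-- TRV (transversal sets).

PROOF.  The number of pairs `{u,v}` inside a class of `P` or of `Q` is at most `inn P + inn Q ≤ n T` (`|A| ≤ T+1`: `∑ |A|(|A|-1)/2 ≤ nT/2`), each pair lies in
`C(n-2,T-2) ≤ C(n,T) (T/n)²` sets. -/
def StTRV : Prop := ∀ (n T : ℕ) (P Q : Finset (Finset (Fin n))), 2 ≤ T → T ≤ n → P ∈ Pt (Fin n) →
  Q ∈ Pt (Fin n) → (∀ A ∈ P, A.card ≤ T + 1) → (∀ A ∈ Q, A.card ≤ T + 1) →
  (n.choose T : ℝ) * (1 - (T : ℝ) ^ 3 / n) ≤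
    (((univ : Finset (Fin n)).powersetCard T).filter
      (fun S => (∀ A ∈ P, (S ∩ A).card ≤ 1) ∧ ∀ A ∈ Q, (S ∩ A).card ≤ 1)).card

open Classical in
/-- DLT (overlapping pairs of independent `T`-sets).  Compare `StVar`, `StRho` of project CN (Pool/Agent/Helper82/CN/St.lean; the proofs of their modules can be copied).

PROOF.  `∑_{|S ∩ S'| = l} q^{2C(T,2) - C(l,2)} ≤ Mk² C(T,l)²/Mk_l` (as in StVar); `l = T` gives exactly `Mk`; for `2 ≤ l ≤ T-1` as in StRho (with `k = T`,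
`C(T,l)²/Mk_l`: for `l ≤ T/2` at most `n^{-2+δ}`, for `T/2 ≤ l ≤ T-1` at most `n^{δ}/Mk_{T-1} ≤ n^{-(2+th)+2δ}`), so the sum over `2 ≤ l ≤ T-1` is at most
`Mk² n^{-2+ε/2}`, and `Mk ≤ n^{1+th+ε/4}` (MKB: `hv p n T ≤ (1+th+δ) ln n`, `Mk ≤ e^{hv}`), `th ≤ 1`. -/
def StDLT : Prop := ∀ (p ε : ℝ), 0 < p → p ≤ 1 - 1 / Real.exp 2 → 0 < ε → ε ≤ 1 / 24 → ∃ n0 : ℕ,
  ∀ (n T : ℕ) (th : ℝ), n0 ≤ n → Win p ε n T th →
  ∑ S ∈ (univ : Finset (Fin n)).powersetCard T,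
    ∑ S' ∈ ((univ : Finset (Fin n)).powersetCard T).filter (fun S' => 2 ≤ (S ∩ S').card),
      (1 - p) ^ (2 * T.choose 2 - (S ∩ S').card.choose 2) ≤
    Mk p n T * (1 + (n : ℝ) ^ (th - 1 + ε))

/-- MKS (size of `Mk`).  PROOF.  `Mk = C(n,T) q^{C(T,2)} ≤ e^{hv}`, `C(n,T) ≥ (n^T/T!)(1 - T²/n)`, and `StMkb` (`aMKB`-type theorem, see
Pool/Agent/Helper82/CN/All.lean) with `k = T`, `α₀ - T = 1 + th`; `T ≤ C ln n`. -/
def StMKS : Prop := ∀ (p ε : ℝ), 0 < p → p ≤ 1 - 1 / Real.exp 2 → 0 < ε → ε ≤ 1 / 24 → ∃ n0 : ℕ,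
  ∀ (n T : ℕ) (th : ℝ), n0 ≤ n → Win p ε n T th → 4 ≤ T ∧ (T : ℝ) ^ 8 ≤ (n : ℝ) ^ (ε / 8) ∧ T ≤ n ∧
  (n : ℝ) ^ (1 + th - ε / 8) ≤ Mk p n T ∧ Mk p n T ≤ (n : ℝ) ^ (1 + th + ε / 8) ∧
  Mk p n T ≤ Real.exp (hv p n T) ∧ Real.exp (hv p n T) * (1 - (T : ℝ) ^ 2 / n) ≤ Mk p n T

open Classical in
/-- WTL (planted expectation of the weight, lower bound).  Uses `StHLB`, `StEPY`, `StMKS`.  `M = Mk p n T`, `kT` = number of classes of size `T`, `η = kT/M`.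

PROOF.  `Xk n T ω = ∑_{|S| = T} 1{S independent}`; `Z` = the `inn P` in-class pairs of `P` (bits), `B S` = the pairs in `S`; `prp ω P` iff the bits of `Z` vanish, `|B S \ Z| =
C(T,2) - ∑_A C(|S∩A|,2)`.  HLB with `s = η`.  `kT ≤ n` and `M ≥ n^{1+th-ε/8}`, so `η ≤ n^{-th+ε/8} ≤ 1/2`.  `1 - x ≥ e^{-x-x²}` for `0 ≤ x ≤ 1/2`, `x_S = (1-e^{-η}) q_S`, `q_S = (1-p)^{|B S \ Z|}`.
`∑ x_S ≤ (η - η²/2 + η³/6) E₁`, `E₁ = ∑ q_S ≤ M(1 + n^{-1+ε/4}) + kT + n^{ε/4}` (EPY with `ε/4`), so `≤ ηM - η²M/2 + η kT + [η³M + η M n^{-1+ε/4} + η n^{ε/4}]`, with `ηM = kT ≤ n`,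
`η³ M = kT³/M² ≤ n^{1-2th+ε/4} ≤ n^{ε/4}` (`th ≥ 1/2`), so `[..] ≤ 3 n^{ε/2}`.  `∑ x_S² ≤ η² ∑ q_S²`: `q_S = 1` only if `S ∈ P` (`kT` of them: `η² kT ≤ n^{1-2th+ε/4}`), otherwise `q_S ≤ q^{T-1} ≤ 1/n`
(a set which is not inside a class has at least `T-1` pairs outside `Z`), `η² E₁/n ≤ n^{ε}/2`-like small.  Sum `≤ n^{ε}`. -/
def StWTL : Prop := ∀ (p ε : ℝ), 0 < p → p ≤ 1 - 1 / Real.exp 2 → 0 < ε → ε ≤ 1 / 24 → ∃ n0 : ℕ,
  ∀ (n T : ℕ) (th : ℝ) (P : Finset (Finset (Fin n))) (kT : ℕ) (η : ℝ), n0 ≤ n →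
  Win p ε n T th → P ∈ Pt (Fin n) → (∀ A ∈ P, A.card ≤ T) → (P.filter (fun A => A.card = T)).card = kT →
  η = kT / Mk p n T →
  (1 - p) ^ inn P * Real.exp (-η * Mk p n T + η ^ 2 * Mk p n T / 2 - η * kT - (n : ℝ) ^ ε) ≤
  EE p (fun ω : Sym2 (Fin n) → Bool => (if prp ω P then (1 : ℝ) else 0) *
    Real.exp (-η * Xk n T ω))

open Classical in
/-- WTU (planted expectation of the squared weight, upper bound).  Uses `StJAN`, `StTRV`, `StDLT`, `StMKS`, `StPRQ`.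

PROOF.  If `P, Q` are proper then `Xk n T ω ≥ #{A ∈ P ∪ Q : |A| = T} + Y₀`, `Y₀` = number of independent transversal `T`-sets (TRV; a class of size `T ≥ 2` is not transversal), and
`#{A ∈ P ∪ Q : |A| = T} = 2 kT - ℓ`.  `Y₀` uses only bits which are not in-class pairs of `P` or `Q`, so by `EE_indep` and PRQ
`E[1_P 1_Q e^{-2ηX}] ≤ q^{inn P + inn Q} b^{ovl} e^{-2η(2kT-ℓ)} E e^{-2ηY₀}`.  JAN with `s = 2η`, `B S` = pairs in `S`: `μ = #transversal · q^{C(T,2)} ≥ M(1 - T³/n)` and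
`Δ ≤` the sum of DLT with `ε/4` (restriction to transversal sets only decreases it; `B S ∩ B S' ≠ ∅` iff `|S ∩ S'| ≥ 2`).  So the exponent is at most
`-2ηM + 2ηM T³/n + 2η²M(1 + n^{th-1+ε/4})`, `2ηM T³/n = 2kT T³/n ≤ n^{ε}/2`, `2η²M n^{th-1+ε/4} = 2 (kT²/M) n^{th-1+ε/4} ≤ n^{ε}/2`. -/
def StWTU : Prop := ∀ (p ε : ℝ), 0 < p → p ≤ 1 - 1 / Real.exp 2 → 0 < ε → ε ≤ 1 / 24 → ∃ n0 : ℕ,
  ∀ (n T : ℕ) (th : ℝ) (P Q : Finset (Finset (Fin n))) (kT : ℕ) (η : ℝ), n0 ≤ n →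
  Win p ε n T th → P ∈ Pt (Fin n) → (∀ A ∈ P, A.card ≤ T) → (P.filter (fun A => A.card = T)).card = kT →
  Q ∈ Pt (Fin n) → (∀ A ∈ Q, A.card ≤ T) → (Q.filter (fun A => A.card = T)).card = kT →
  η = kT / Mk p n T →
  EE p (fun ω : Sym2 (Fin n) → Bool => (if prp ω P ∧ prp ω Q then (1 : ℝ) else 0) *
    Real.exp (-2 * η * Xk n T ω)) ≤
  (1 - p) ^ (inn P + inn Q) * (1 / (1 - p)) ^ ovl P Q *
    Real.exp (-2 * η * (2 * kT - ((P ∩ Q).filter (fun A => A.card = T)).card) -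
      2 * η * Mk p n T + 2 * η ^ 2 * Mk p n T + (n : ℝ) ^ ε)

open Classical in
/-- PZW (second moment with weights).  Uses `StWTL`, `StWTU`, `StOPT`.

PROOF.  `Z = ∑_{P ∈ 𝓔} 1{P proper} e^{-ηX}`, `X = Xk n T`.  `(E Z)² ≤ P(Z > 0) E Z²` (`EE_cs`), `Z > 0` implies `χ ≤ k` (OPT).  All `P ∈ 𝓔` have the same `inn P = I`.
WTL: `E Z ≥ |𝓔| q^I exp(-ηM + η²M/2 - ηkT - n^ε)`.  WTU: `E Z² ≤ q^{2I} exp(-4ηkT - 2ηM + 2η²M + n^ε) ∑_{P,Q} b^{ovl} e^{2η|P ∩ Q|}` `≤ q^{2I} exp(..) |𝓔|² ρ`.  The quotient is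
`exp(-η²M + 2ηkT - 3n^ε)/ρ`, and `η²M = kT²/M = ηkT`. -/
def StPZW : Prop := ∀ (p ε : ℝ), 0 < p → p ≤ 1 - 1 / Real.exp 2 → 0 < ε → ε ≤ 1 / 24 → ∃ n0 : ℕ,
  ∀ (n T : ℕ) (th : ℝ) (𝓔 : Finset (Finset (Finset (Fin n)))) (kT k I : ℕ) (ρ : ℝ), n0 ≤ n →
  Win p ε n T th → 𝓔.Nonempty → (∀ P ∈ 𝓔, P ∈ Pt (Fin n) ∧ (∀ A ∈ P, A.card ≤ T) ∧
    (P.filter (fun A => A.card = T)).card = kT ∧ P.card = k ∧ inn P = I) → 0 < ρ →
  (∀ P ∈ 𝓔, ∑ Q ∈ 𝓔, (1 / (1 - p)) ^ ovl P Q *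
    Real.exp (2 * (kT / Mk p n T) * ((P ∩ Q).filter (fun A => A.card = T)).card) ≤ (𝓔.card : ℝ) * ρ) →
  Real.exp ((kT : ℝ) ^ 2 / Mk p n T - 3 * (n : ℝ) ^ ε) / ρ ≤
    PP p (fun ω : Sym2 (Fin n) → Bool => ch (gr ω) ≤ k)

/-- AZU (from a small probability to a large one).

PROOF.  `f = fn p n`.  StMcg with `ι = Sym2 (Fin n)` as in the proof of StMcd (`aMCD`, Pool/Agent/Helper89/CN: copy) gives `P(χ ≤ f - u) ≤ e^{-u²/(2n)}` and, for `s > 0`,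
`P(χ ≥ f + u) ≤ e^{-u²/(2n)}`.  If `f > k + √(2 n m)` then `P(χ ≤ k) ≤ P(χ ≤ f - u)` for some `u > √(2nm)`, so it is `< e^{-m}`, a contradiction.  So `f ≤ k + √(2nm)` and
`P(χ > k + 2√(2nm)) ≤ P(χ ≥ f + √(2nm)) ≤ e^{-m}`. -/
def StAZU : Prop := ∀ (p m : ℝ) (n k : ℕ), 0 ≤ p → p ≤ 1 → 1 ≤ n → 0 ≤ m →
  Real.exp (-m) ≤ PP p (fun ω : Sym2 (Fin n) → Bool => ch (gr ω) ≤ k) →
  PP p (fun ω : Sym2 (Fin n) → Bool => (k : ℝ) + 2 * √(2 * n * m) < ch (gr ω)) ≤ Real.exp (-m)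

/-! ### first moments of rare events -/

open Classical in
/-- IDN (independence number).  Uses `StUBD` (`Pool.Agent.Helper94.PV.tUBD`) or a direct union bound.

PROOF.  `P(ind ≥ j) ≤ C(n,j) q^{C(j,2)} ≤ e^{hv p n j}`, MKB with `k = T+2` and `k = T+8`: `≤ n^{th-1+ε/2}`, `≤ n^{-4}` (`α₀ - (T+2) = th - 1`, `α₀ - (T+8) = th - 7`). So the left side of the
last inequality is at most `(T + 8) P(ind ≥ T+2) + n P(ind ≥ T+8)`; and `E ind ≤ T + 1 + (that)`. -/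
def StIDN : Prop := ∀ (p ε : ℝ), 0 < p → p ≤ 1 - 1 / Real.exp 2 → 0 < ε → ε ≤ 1 / 24 → ∃ n0 : ℕ,
  ∀ (n T : ℕ) (th : ℝ), n0 ≤ n → Win p ε n T th →
  EE p (fun ω : Sym2 (Fin n) → Bool => (ind ω : ℝ)) ≤ T + 2 ∧
  EE p (fun ω : Sym2 (Fin n) → Bool => if T + 2 ≤ ind ω then (ind ω : ℝ) else 0) ≤
    (n : ℝ) ^ (th - 1 + ε) ∧
  PP p (fun ω : Sym2 (Fin n) → Bool => T + 8 ≤ ind ω) ≤ (n : ℝ) ^ (-(3 : ℝ))

open Classical in
/-- MAX (few classes of size `T+1`).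

PROOF.  If `P` is proper with at least `j` classes of size `T+1` there are `j` disjoint independent `(T+1)`-sets.  The expected number of families of `j` disjoint independent `(T+1)`-sets is at
most `M^j/j!`, `M = e^{hv p n (T+1)} ≤ n^{th+ε}` (MKB) `≤ (eM/j)^j ≤ e^{-j}` if `j ≥ e² M` (`j ≥ n^{th+2ε}`). -/
def StMAX : Prop := ∀ (p ε : ℝ), 0 < p → p ≤ 1 - 1 / Real.exp 2 → 0 < ε → ε ≤ 1 / 24 → ∃ n0 : ℕ,
  ∀ (n T : ℕ) (th : ℝ), n0 ≤ n → Win p ε n T th →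
  PP p (fun ω : Sym2 (Fin n) → Bool => ∃ P ∈ Pt (Fin n), prp ω P ∧
    (n : ℝ) ^ (th + 2 * ε) ≤ (P.filter (fun A => A.card = T + 1)).card) ≤ (n : ℝ) ^ (-(3 : ℝ))

end Pool.Agent.Helper69.UX
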