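import Pool.Agent.Helper69.UX.Defs

/-!
# Project UX (MP_e12aa9_pr), part B: sums over partitions.  Statements with proofs
-/

set_option autoImplicit false

namespace Pool.Agent.Helper69.UX

open Finset Filter Pool.Agent.Helper82.CN Pool.Agent.Helper11.PV Pool.Agent.Helper69.VX

/-- the fibre of the label `i` -/
def fib {V L : Type} [Fintype V] [DecidableEq L] (f : V → L) (i : L) : Finset V :=
  univ.filter (fun x => f x = i)

/-- weight of a small block -/
noncomputable def hh (R : ℕ) (ws : ℝ) (r : ℕ) : ℝ := if r ≤ R then ws ^ (r.choose 2) else 0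

/-- the correlation exponent -/
noncomputable def GG (A R N : ℕ) (ws : ℝ) : ℝ :=
  ∑ r ∈ Icc 2 R, Real.exp 1 ^ r * (A : ℝ) ^ (2 * r - 2) * ws ^ (r.choose 2) /
    ((N : ℝ) ^ (r - 2) * (r.factorial : ℝ))

open Classical in
/-- CNM (counting maps with given fibre sizes which contain given sets).

PROOF.  `N = |V|`, `s_i = |B i|`, `s = ∑ s_i`.  If there is such an `f` then `∑ v i = N`, `s_i ≤ v i`; `f` is determined on `⋃ B i`, and on the rest it is a map with fibre sizes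
`v i - s_i`, so there are `(N-s)!/∏ (v i - s_i)!` of them, and `(v i)!/(v i - s_i)! ≤ (v i)^{s_i}`, `N!/(N-s)! ≥ (N/e)^s` (`∑_{j<s} ln(1 - j/N) ≥ -s`; or induction on `s` with
`(1 + 1/m)^m ≤ e`).  (Without the exact count: induction on `s`, or count permutations: the number of maps with fibre sizes `v` is `N!/∏ v_i!`, see
`DomMulAct.stabilizer_card` or induction on the number of labels with `Finset.card_powersetCard`.) -/
def StCNM : Prop := ∀ (V L : Type) [Fintype V] [DecidableEq V] [Fintype L] [DecidableEq L]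
  (v : L → ℕ) (B : L → Finset V), 1 ≤ Fintype.card V → (∀ i j, i ≠ j → Disjoint (B i) (B j)) →
  (((univ : Finset (V → L)).filter (fun f => ∀ i, (fib f i).card = v i ∧ B i ⊆ fib f i)).card : ℝ) *
    ∏ i, ((v i).factorial : ℝ) ≤
  ((Fintype.card V).factorial : ℝ) * (∏ i, (v i : ℝ) ^ (B i).card) *
    (Real.exp 1 / Fintype.card V) ^ (∑ i, (B i).card)

open Classical in
/-- MA0 (product weights).

PROOF.  The number of maps with fibre sizes `v` (`∑ v i = |V|`) is `|V|!/∏ (v i)!` (case `B = ∅` of CNM for `|V| ≥ 1`; `|V| = 0`: one map, all fibres empty).  Sum over all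
`v : L → ℕ` with `v i ≤ A` (`Finset.prod_univ_sum`). -/
def StMA0 : Prop := ∀ (V L : Type) [Fintype V] [DecidableEq V] [Fintype L] [DecidableEq L]
  (A : ℕ) (G : L → ℕ → ℝ), (∀ i v, 0 ≤ G i v) → (∀ i v, A < v → G i v = 0) →
  ∑ f : V → L, ∏ i, G i (fib f i).card ≤
    ((Fintype.card V).factorial : ℝ) * ∏ i, ∑ v ∈ range (A + 1), G i v / (v.factorial : ℝ)

open Classical in
/-- MAP (product weights and small blocks).  Uses `StCNM`.

PROOF.  `N = |V|`.  `hh R ws r ≤ ∑_{B ⊆ block, |B| ≤ R, |B| ≠ 1} ws^{|B| choose 2}` for a block with `r` elements (`B = ∅` gives `1`, for `2 ≤ r ≤ R` add `B` = block).  So the left side is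
at most `∑_{(B_ij)} ∏ ws^{|B_ij| choose 2} ∑_f ∏_i G i |fib f i|` over the families with `B_ij ⊆ C j`, `|B_ij| ∈ {0} ∪ [2,R]`, and over the `f` with `B_ij ⊆ fib f i` for all `i, j`
(then the `B_i = ⋃_j B_ij` are disjoint).  Group the `f` by the fibre sizes `v` (`v i ≤ A`, `∑ v i = N`, otherwise the weight is `0` or there is no `f`): CNM:
`≤ N! ∏_i G i (v i)/(v i)! · ∏_{i,j} (e v_i/N)^{|B_ij|}` (`|B_i| = ∑_j |B_ij|`).  For fixed `v` the sum over the families (drop the disjointness) is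
`∏_{i,j} (1 + ∑_{r=2}^R C(c_j,r) ws^{C(r,2)} (e v_i/N)^r) ≤ exp(∑_r ws^{C(r,2)} (e/N)^r (∑_j c_j^r)(∑_i v_i^r)/r!)`, `c_j = |C j| ≤ A`, `∑ c_j ≤ N`, so `∑_j c_j^r ≤ A^{r-1} N` and
`∑_i v_i^r ≤ A^{r-1} N`: at most `exp(GG A R N ws)`. -/
def StMAP : Prop := ∀ (V L J : Type) [Fintype V] [DecidableEq V] [Fintype L] [DecidableEq L]
  [Fintype J] [DecidableEq J] (A R : ℕ) (ws : ℝ) (C : J → Finset V) (G : L → ℕ → ℝ),
  1 ≤ Fintype.card V → 1 ≤ ws → (∀ j j', j ≠ j' → Disjoint (C j) (C j')) →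
  (∀ j, (C j).card ≤ A) → (∀ i v, 0 ≤ G i v) → (∀ i v, A < v → G i v = 0) →
  ∑ f : V → L, ∏ i, (G i (fib f i).card * ∏ j, hh R ws (fib f i ∩ C j).card) ≤
    ((Fintype.card V).factorial : ℝ) * Real.exp (GG A R (Fintype.card V) ws) *
      ∏ i, ∑ v ∈ range (A + 1), G i v / (v.factorial : ℝ)

open Classical in
/-- LAB (labels).

PROOF.  For `P` with `l` classes there are `l!` bijections `Fin l → P`, each gives a surjective `f` with `univ.image (fib f) = P`, and different pairs (`P`, bijection) give different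
`f` (the classes are nonempty). -/
def StLAB : Prop := ∀ (V : Type) [Fintype V] [DecidableEq V] (l : ℕ) (Φ : Finset (Finset V) → ℝ),
  (∀ P, 0 ≤ Φ P) →
  (l.factorial : ℝ) * ∑ P ∈ (Pt V).filter (fun P => P.card = l), Φ P ≤
    ∑ f ∈ (univ : Finset (V → Fin l)).filter (fun f => Function.Surjective f),
      Φ (univ.image (fib f))

open Classical in
/-- TLT (exponential formula, upper bound).  Uses `StLAB`, `StMA0`.

PROOF.  Split by `l = |P|`.  For surjective `f : Fin n → Fin l` the fibres are different nonempty sets, so `pw g (univ.image (fib f)) = ∏_i g |fib f i|`; LAB, MA0 with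
`G i v = g v` (`g 0 = 0`): `l! ∑_{|P| = l} pw g P ≤ n! S^l`, `S = ∑ g v/v!`; `∑ S^l/l! ≤ e^S` (`Real.sum_le_exp_of_nonneg`). -/
def StTLT : Prop := ∀ (n A : ℕ) (g : ℕ → ℝ), (∀ v, 0 ≤ g v) → g 0 = 0 → (∀ v, A < v → g v = 0) →
  ∑ P ∈ Pt (Fin n), pw g P ≤
    (n.factorial : ℝ) * Real.exp (∑ v ∈ range (A + 1), g v / (v.factorial : ℝ))

open Classical in
/-- LBS (labels with seeds).

PROOF.  Let `Q` be counted.  For `C ∈ I` there is a class `B_C ∈ Q` with `|B_C ∩ C| > R` (`mxb Q C > R`), it is unique (`|C| ≤ A ≤ 2R` and the blocks of `C` are disjoint), and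
`C ↦ B_C` is injective (`|B_C| ≤ A ≤ 2R`, the classes of `P` are disjoint).  Give the class `B_C` the label `inl C` and the other `l` classes the labels `inr i` in `l!` ways.  The map `f`
has `univ.image (fib f) = Q`, and different (`Q`, numbering) give different `f`. -/
def StLBS : Prop := ∀ (n A R l : ℕ) (P I : Finset (Finset (Fin n))) (Φ : Finset (Finset (Fin n)) → ℝ),
  P ∈ Pt (Fin n) → I ⊆ P → (∀ C ∈ P, C.card ≤ A) → A ≤ 2 * R → (∀ Q, 0 ≤ Φ Q) →
  (l.factorial : ℝ) * ∑ Q ∈ (Pt (Fin n)).filter (fun Q => (∀ B ∈ Q, B.card ≤ A) ∧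
      bigS R P Q = I ∧ Q.card = I.card + l), Φ Q ≤
    ∑ f ∈ (univ : Finset (Fin n → {C // C ∈ I} ⊕ Fin l)).filter
      (fun f => (∀ C : {C // C ∈ I}, R < (fib f (Sum.inl C) ∩ C.1).card) ∧
        (∀ i : Fin l, (fib f (Sum.inr i)).Nonempty) ∧
        (univ.image (fib f) ∈ Pt (Fin n) ∧ bigS R P (univ.image (fib f)) = I)),
      Φ (univ.image (fib f))

open Classical in
/-- OVL (the overlap sum).  Uses `StMAP`, `StLBS`.

PROOF.  Only `Q` with classes of size `≤ A` count (otherwise `pw g Q = 0`).  Split by `l = |Q| - |I|`; LBS with `Φ Q = pw g Q w^{ovB} ws^{ovl - ovB}` if `NR R P Q = N`, `0` otherwise.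
Let `f` be counted, `Q = univ.image (fib f)`, `B_C = fib f (inl C) ∩ C` for `C ∈ I` (`|B_C| > R`); `mxb Q C = |B_C|` (another block of `C` has at most `A - R - 1 < R` elements), so
`∑ |B_C| = n - N`, `ovB = ∑ C(|B_C|,2)`; every other block `fib f i ∩ C'` (`C' ∈ P`, `(i,C') ≠ (inl C, C)`) has at most `R` elements (for `C' ∉ I`: `mxb ≤ R`), and
`ovl - ovB` is the sum of `C(·,2)` over the other blocks.  Fix the `B_C` and let `V' = (⋃ B_C)ᶜ`, `|V'| = N`, `f' = f` restricted to `V'`.  `fib f' (inl C) ∩ C = ∅`, so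
`Φ Q = ∏_C (g(|fib f' (inl C)| + |B_C|) w^{C(|B_C|,2)}) ∏_i g |fib f' (inr i)| ∏_{i, C'} hh R ws |fib f' i ∩ C'|` (the fibres are different nonempty sets).
MAP on `V'` (a subtype) with cells `C' ∩ V'`, `G (inl C) v = g (v + |B_C|)`, `G (inr i) v = g v`:
`≤ N! e^{GG A R N ws} ∏_C w^{C(|B_C|,2)} (∑_v g(v + |B_C|)/v!) · S^l`, `S = ∑ g v/v!`.  There are `∏ C(|C|, r_C)` families with `|B_C| = r_C`, `∑ r_C = n - N`, and
`1 = z^{n-N} ∏ z^{-r_C}`; now drop the condition `∑ r_C = n - N`.  Divide by `l!` and sum over `l`. -/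
def StOVL : Prop := ∀ (n A R N : ℕ) (g : ℕ → ℝ) (w ws z : ℝ) (P I : Finset (Finset (Fin n))),
  P ∈ Pt (Fin n) → I ⊆ P → (∀ C ∈ P, C.card ≤ A) → A ≤ 2 * R → 1 ≤ N → N ≤ n → (∀ v, 0 ≤ g v) →
  g 0 = 0 → (∀ v, A < v → g v = 0) → 1 ≤ w → w ≤ ws → 0 < z →
  ∑ Q ∈ (Pt (Fin n)).filter (fun Q => bigS R P Q = I ∧ NR R P Q = N),
      pw g Q * w ^ ovB R P Q * ws ^ (ovl P Q - ovB R P Q) ≤
    Real.exp (GG A R N ws + ∑ v ∈ range (A + 1), g v / (v.factorial : ℝ)) * (N.factorial : ℝ) *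
      z ^ (n - N) * ∏ C ∈ I, ∑ r ∈ Ioc R C.card, (C.card.choose r : ℝ) * w ^ (r.choose 2) / z ^ r *
        ∑ v ∈ Icc r A, g v / ((v - r).factorial : ℝ)

open Classical in
/-- CRU (partitions which are very close to `P`).

PROOF.  (1) `Q` is determined by `V'` = the set of vertices outside the big blocks (`|V'| = NR ≤ N₁`; `≤ (n+1)^{N₁}` choices) and, for every `x ∈ V'`, either the class `C ∈ bigS` whose
big block lies in the class of `x`, or the smallest element of the class of `x` (if this class contains no big block; it lies in `V'`): at most `(2n)^{|V'|} ≤ (n+1)^{2N₁}` choices.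
(The classes `C ∈ P` in `bigS` are those with `C ⊄ V'`, their big blocks are `C \ V'`, and they lie in different classes of `Q` as `|B| ≤ A ≤ 2R`.)  (2) `ovl ≥ ovB = ∑ C(r,2)`,
`r = mxb ≥ R + 1`, `2 C(r,2) = r(r-1) ≥ r R`, `∑ r = n - NR` (a big block has `≤ |C|` elements, the `C` are disjoint). (3) `(A ∩ B)`, `A ∈ P`, are disjoint subsets of `B`. -/
def StCRU : Prop := ∀ (n A R N₁ : ℕ) (P : Finset (Finset (Fin n))), P ∈ Pt (Fin n) →
  (∀ C ∈ P, C.card ≤ A) → A ≤ 2 * R →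
  ((Pt (Fin n)).filter (fun Q => (∀ B ∈ Q, B.card ≤ A) ∧ NR R P Q ≤ N₁)).card ≤ (n + 1) ^ (3 * N₁) ∧
  (∀ Q ∈ Pt (Fin n), (n - NR R P Q) * R ≤ 2 * ovl P Q) ∧
  (∀ Q ∈ Pt (Fin n), ovl P Q ≤ inn Q ∧ ovl P Q ≤ inn P ∧ ovB R P Q ≤ ovl P Q ∧ NR R P Q ≤ n)

open Classical in
/-- the partitions with `k u` classes of size `u` -/
noncomputable def Ex (n : ℕ) (k : ℕ → ℕ) : Finset (Finset (Finset (Fin n))) :=
  (Pt (Fin n)).filter (fun P => ∀ u, (P.filter (fun A => A.card = u)).card = k u)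

open Classical in
/-- EXC (number of partitions with given class sizes).

PROOF.  There is such a partition `P₀` (cut `0, ..., n-1` into intervals).  `σ ↦ σ(P₀)` maps the permutations into `Ex` and each fibre has at most
`∏ (u!)^{k u} (k u)!` elements: if `σ(P₀) = τ(P₀)` then `τ⁻¹σ` permutes the classes of every size (`∏ (k u)!` ways) and for a given permutation of the classes there are `∏ (u!)^{k u}`
permutations.  `|P| = ∑ k u`, `inn P = ∑ k u C(u,2)`. -/
def StEXC : Prop := ∀ (n T : ℕ) (k : ℕ → ℕ), k 0 = 0 → (∀ u, T < u → k u = 0) →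
  ∑ u ∈ range (T + 1), u * k u = n →
  (n.factorial : ℝ) ≤ ((Ex n k).card : ℝ) * ∏ u ∈ range (T + 1),
    ((u.factorial : ℝ) ^ k u * ((k u).factorial : ℝ)) ∧
  ∀ P ∈ Ex n k, P.card = ∑ u ∈ range (T + 1), k u ∧
    inn P = ∑ u ∈ range (T + 1), k u * u.choose 2 ∧ ∀ A ∈ P, A.card ≤ T

end Pool.Agent.Helper69.UX
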