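import Pool.Agent.Helper69.UX.StE

/-!
# Project UX (MP_e12aa9_pr), part F: all exponents occur.  Statement with proof
-/

set_option autoImplicit false

namespace Pool.Agent.Helper69.UX

open Finset Filter Pool.Agent.Helper82.CN Pool.Agent.Helper11.PV Pool.Agent.Helper69.VX

open Classical in
/-- SPC (every exponent `x ∈ [1/4, 1/2)` occurs with positive lower density).  Uses `StUXF` and `StWth` (`aWTH`-type theorem, Pool/Agent/Helper82/CN/All.lean).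
Compare the module of `StDen` (Pool/Agent/Helper82/CN/St.lean): the same proof with two-sided bounds.

PROOF.  `θ₀ = 2x ∈ [1/2, 1)`, `ε' = min(ε, 1 - θ₀)/8`, `η` small (WTH for `ε'`, and `(2/L) ln(1+η) ≤ ε'`).  `α₀(CN) - α₀(N) ≥ 2` for a suitable constant `C₁` and all large `N`, so there are an integer `a` and `N₁ ∈ [N, C₁N]` with `a + θ₀ + ε' ≤ α₀(N₁) ≤ a + θ₀ + 2ε'` (`N₁` = least integer with
`α₀(N₁) ≥ a + θ₀ + ε'`), and `α₀(⌊(1+η)N₁⌋) ≤ a + θ₀ + 4ε' ≤ a + 1`.  WTH: at least `(1 - θ₀ - 2ε' - ε') η N₁ ≥ c N` numbers `n ∈ (N₁, (1+η)N₁]` satisfy `σ_n ≥ N₁^{(α₀(N₁)-a)/2 - ε'} ≥ N₁^{x - ε'} ≥ n^{x-ε}`.  For all these `n`: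
`fract (α₀ n) = α₀(n) - a ∈ [θ₀ + ε', θ₀ + 4ε'] ⊆ [1/2, 1)`, so `σ_n ≤ n^{fract/2 + ε'} ≤ n^{x + 3ε'} ≤ n^{x+ε}` (UXF). -/
def StSPC : Prop := ∀ (p x ε : ℝ), 0 < p → p ≤ 1 - 1 / Real.exp 2 → 1 / 4 ≤ x → x < 1 / 2 → 0 < ε →
  ∃ c C : ℝ, 0 < c ∧ ∃ N0 : ℕ, ∀ N : ℕ, N0 ≤ N →
  c * N ≤ (((Icc N ⌊C * N⌋₊).filter (fun n : ℕ => (n : ℝ) ^ (x - ε) ≤ sn p n ∧
    sn p n ≤ (n : ℝ) ^ (x + ε))).card : ℝ)

end Pool.Agent.Helper69.UX
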